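import Pool.Agent.Lib.MP_3c7f5c_ag.MonDefs

/-!
# The family `f_a = (x - y²)^a (u - v²)^a (x u + w²)`: auxiliary definitions
-/

open Set

namespace Pool.Agent.HZ

/-- `f_a = (x - y²)^a (u - v²)^a (x u + w²)` in the variables
`(x, y, w, u, v) = (X 0, …, X 4)` -/
noncomputable def fa (a : ℕ) : MvPolynomial (Fin 5) ℂ :=
  (MvPolynomial.X 0 - MvPolynomial.X 1 ^ 2) ^ a * (MvPolynomial.X 3 - MvPolynomial.X 4 ^ 2) ^ a *
    (MvPolynomial.X 0 * MvPolynomial.X 3 + MvPolynomial.X 2 ^ 2)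

/-- there is no common eigenvector of `T` and `S` on any `H_k(X; ℂ)` with eigenvalues `lam`
and `eps` -/
def JNoEig {X : Type} [TopologicalSpace X] (T S : C(X, X)) (lam eps : ℂ) : Prop :=
  ∀ (k : ℕ) (a : Hl k X), Hmap k T a = lam • a → Hmap k S a = eps • a → a = 0

/-- local statement: arbitrarily small neighbourhoods `V` of `x`, such that the monodromy has
finite order on the homology of the tube and does not have the eigenvalue `lam` -/
def LSe {n : ℕ} (f : MvPolynomial (Fin n) ℂ) (x : Fin n → ℂ) (lam : ℂ) : Prop :=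
  ∀ U : Set (Fin n → ℂ), IsOpen U → x ∈ U →
    ∃ V : Set (Fin n → ℂ), IsOpen V ∧ x ∈ V ∧ V ⊆ U ∧ NoEig (deck f V) lam ∧
      ∃ m : ℕ, 0 < m ∧ PowOne (deck f V) m

section
variable {Z : Type} [TopologicalSpace Z]

/-- `(z, τ) ↦ (σ z, τ)` -/
noncomputable def Cov.S (F : C(Z, ℂ)) (σ : C(Z, Z)) (h : ∀ z, F (σ z) = F z) :
    C(Cov F, Cov F) where
  toFun p := ⟨(σ p.1.1, p.1.2), by rw [h, p.2]⟩
  continuous_toFun := by
    refine Continuous.subtype_mk ?_ _
    exact (σ.continuous.comp (continuous_fst.comp continuous_subtype_val)).prodMk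
      (continuous_snd.comp continuous_subtype_val)

/-- `(z, τ, q) ↦ (σ z, τ, e q)` for `e² = 1` -/
noncomputable def Susp.S (F : C(Z, ℂ)) (σ : C(Z, Z)) (h : ∀ z, F (σ z) = F z) (e : ℂ)
    (he : e ^ 2 = 1) : C(Susp F, Susp F) where
  toFun p := ⟨(σ p.1.1, p.1.2.1, e * p.1.2.2), by rw [h, mul_pow, he, one_mul, p.2]⟩
  continuous_toFun := by
    refine Continuous.subtype_mk ?_ _
    have h1 : Continuous fun p : Susp F => p.1 := continuous_subtype_val
    exact (σ.continuous.comp (continuous_fst.comp h1)).prodMk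
      ((continuous_fst.comp (continuous_snd.comp h1)).prodMk
        (continuous_const.mul (continuous_snd.comp (continuous_snd.comp h1))))

end

section
variable {P : Type} [TopologicalSpace P]

/-- the lift `(p, s) ↦ (T p, s)` to the double covering `s² = g` of a map `T` with
`g ∘ T = g` -/
noncomputable def DCov.lift (g : C(P, ℂ)) (T : C(P, P)) (h : ∀ p, g (T p) = g p) :
    C(DCov g, DCov g) where
  toFun q := ⟨(T q.1.1, q.1.2), by rw [h, q.2]⟩
  continuous_toFun := by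
    refine Continuous.subtype_mk ?_ _
    have h : Continuous fun q : DCov g => q.1 := continuous_subtype_val
    exact (T.continuous.comp (continuous_fst.comp h)).prodMk (continuous_snd.comp h)

/-- the deck transformation `(p, s) ↦ (p, -s)` of the double covering `s² = g` -/
noncomputable def DCov.neg (g : C(P, ℂ)) : C(DCov g, DCov g) where
  toFun q := ⟨(q.1.1, -q.1.2), by rw [neg_sq, q.2]⟩
  continuous_toFun := by
    refine Continuous.subtype_mk ?_ _
    have h : Continuous fun q : DCov g => q.1 := continuous_subtype_val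
    exact (continuous_fst.comp h).prodMk (continuous_snd.comp h).neg
end

/-- `(-1)^a` as a complex number has square `1` -/
theorem sgn_sq (a : ℕ) : ((-1 : ℂ) ^ a) ^ 2 = 1 := by
  rw [← pow_mul, mul_comm, pow_mul, neg_one_sq, one_pow]

/-! ### First level -/

/-- the function `(x - y²) (u - v²)` on the tube of `f_a` -/
def ABfun (a : ℕ) (V : Set (Fin 5 → ℂ)) : C(Tube (fa a) V, ℂ) where
  toFun p := (p.1.1 0 - p.1.1 1 ^ 2) * (p.1.1 3 - p.1.1 4 ^ 2)
  continuous_toFun := by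
    have h : Continuous fun p : Tube (fa a) V => p.1 := continuous_subtype_val
    have hz : ∀ i : Fin 5, Continuous fun p : Tube (fa a) V => p.1.1 i := fun i =>
      (continuous_apply i).comp (continuous_fst.comp h)
    exact ((hz 0).sub ((hz 1).pow 2)).mul ((hz 3).sub ((hz 4).pow 2))

/-- `{(x, y, u, v, s) : s² = (x - y²) (u - v²), s ≠ 0, (u, v) ∈ D}` -/
def Z1a (D : Set (ℂ × ℂ)) : Type :=
  {z : ℂ × ℂ × ℂ × ℂ × ℂ // z.2.2.2.2 ^ 2 = (z.1 - z.2.1 ^ 2) * (z.2.2.1 - z.2.2.2.1 ^ 2) ∧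
    z.2.2.2.2 ≠ 0 ∧ (z.2.2.1, z.2.2.2.1) ∈ D}

instance (D : Set (ℂ × ℂ)) : TopologicalSpace (Z1a D) :=
  inferInstanceAs (TopologicalSpace {z : ℂ × ℂ × ℂ × ℂ × ℂ //
    z.2.2.2.2 ^ 2 = (z.1 - z.2.1 ^ 2) * (z.2.2.1 - z.2.2.2.1 ^ 2) ∧
    z.2.2.2.2 ≠ 0 ∧ (z.2.2.1, z.2.2.2.1) ∈ D})

/-- `F₁ = x u s^{2a}` on `Z1a D` -/
def F1a (a : ℕ) (D : Set (ℂ × ℂ)) : C(Z1a D, ℂ) where
  toFun z := z.1.1 * z.1.2.2.1 * (z.1.2.2.2.2 ^ a) ^ 2
  continuous_toFun := by
    have h : Continuous fun z : Z1a D => z.1 := continuous_subtype_val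
    have hx : Continuous fun z : Z1a D => z.1.1 := continuous_fst.comp h
    have hu : Continuous fun z : Z1a D => z.1.2.2.1 :=
      continuous_fst.comp (continuous_snd.comp (continuous_snd.comp h))
    have hs : Continuous fun z : Z1a D => z.1.2.2.2.2 :=
      continuous_snd.comp (continuous_snd.comp (continuous_snd.comp (continuous_snd.comp h)))
    exact (hx.mul hu).mul ((hs.pow a).pow 2)

/-- the involution `s ↦ -s` of `Z1a D` -/
def sg1 (D : Set (ℂ × ℂ)) : C(Z1a D, Z1a D) where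
  toFun z := ⟨(z.1.1, z.1.2.1, z.1.2.2.1, z.1.2.2.2.1, -z.1.2.2.2.2), by
    refine ⟨?_, neg_ne_zero.2 z.2.2.1, z.2.2.2⟩
    show (-z.1.2.2.2.2) ^ 2 = _
    rw [neg_sq]
    exact z.2.1⟩
  continuous_toFun := by
    refine Continuous.subtype_mk ?_ _
    have h : Continuous fun z : Z1a D => z.1 := continuous_subtype_val
    have h2 : Continuous fun z : Z1a D => z.1.2 := continuous_snd.comp h
    have h3 : Continuous fun z : Z1a D => z.1.2.2 := continuous_snd.comp h2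
    have h4 : Continuous fun z : Z1a D => z.1.2.2.2 := continuous_snd.comp h3
    exact (continuous_fst.comp h).prodMk ((continuous_fst.comp h2).prodMk
      ((continuous_fst.comp h3).prodMk ((continuous_fst.comp h4).prodMk
        (continuous_snd.comp h4).neg)))

theorem F1a_sg1 (a : ℕ) (D : Set (ℂ × ℂ)) (z : Z1a D) : F1a a D (sg1 D z) = F1a a D z := by
  show z.1.1 * z.1.2.2.1 * ((-z.1.2.2.2.2) ^ a) ^ 2 = z.1.1 * z.1.2.2.1 * (z.1.2.2.2.2 ^ a) ^ 2
  rw [← pow_mul, mul_comm a 2, pow_mul, neg_sq, ← pow_mul, ← pow_mul, mul_comm a 2]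

/-! ### Second level -/

/-- the function `u` on `Cov (F1a a D)` -/
def uFa (a : ℕ) (D : Set (ℂ × ℂ)) : C(Cov (F1a a D), ℂ) where
  toFun p := p.1.1.1.2.2.1
  continuous_toFun := by
    have h : Continuous fun p : Cov (F1a a D) => p.1 := continuous_subtype_val
    have h2 : Continuous fun p : Cov (F1a a D) => p.1.1.1 :=
      continuous_subtype_val.comp (continuous_fst.comp h)
    exact continuous_fst.comp (continuous_snd.comp (continuous_snd.comp h2))

/-- `{(X, v, t, s) : s² = X (t² - v²), s ≠ 0, t ≠ 0, (t², v) ∈ D}` -/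
def Z2a (D : Set (ℂ × ℂ)) : Type :=
  {z : ℂ × ℂ × ℂ × ℂ // z.2.2.2 ^ 2 = z.1 * (z.2.2.1 ^ 2 - z.2.1 ^ 2) ∧ z.2.2.2 ≠ 0 ∧
    z.2.2.1 ≠ 0 ∧ (z.2.2.1 ^ 2, z.2.1) ∈ D}

instance (D : Set (ℂ × ℂ)) : TopologicalSpace (Z2a D) :=
  inferInstanceAs (TopologicalSpace {z : ℂ × ℂ × ℂ × ℂ //
    z.2.2.2 ^ 2 = z.1 * (z.2.2.1 ^ 2 - z.2.1 ^ 2) ∧ z.2.2.2 ≠ 0 ∧
    z.2.2.1 ≠ 0 ∧ (z.2.2.1 ^ 2, z.2.1) ∈ D})

/-- `F₂ = X t² s^{2a}` on `Z2a D` -/
def F2a (a : ℕ) (D : Set (ℂ × ℂ)) : C(Z2a D, ℂ) where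
  toFun z := z.1.1 * z.1.2.2.1 ^ 2 * (z.1.2.2.2 ^ a) ^ 2
  continuous_toFun := by
    have h : Continuous fun z : Z2a D => z.1 := continuous_subtype_val
    have hx : Continuous fun z : Z2a D => z.1.1 := continuous_fst.comp h
    have ht : Continuous fun z : Z2a D => z.1.2.2.1 :=
      continuous_fst.comp (continuous_snd.comp (continuous_snd.comp h))
    have hs : Continuous fun z : Z2a D => z.1.2.2.2 :=
      continuous_snd.comp (continuous_snd.comp (continuous_snd.comp h))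
    exact (hx.mul (ht.pow 2)).mul ((hs.pow a).pow 2)

/-- the involution `s ↦ -s` of `Z2a D` -/
def sg2 (D : Set (ℂ × ℂ)) : C(Z2a D, Z2a D) where
  toFun z := ⟨(z.1.1, z.1.2.1, z.1.2.2.1, -z.1.2.2.2), by
    refine ⟨?_, neg_ne_zero.2 z.2.2.1, z.2.2.2⟩
    show (-z.1.2.2.2) ^ 2 = _
    rw [neg_sq]
    exact z.2.1⟩
  continuous_toFun := by
    refine Continuous.subtype_mk ?_ _
    have h : Continuous fun z : Z2a D => z.1 := continuous_subtype_val
    have h2 : Continuous fun z : Z2a D => z.1.2 := continuous_snd.comp h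
    have h3 : Continuous fun z : Z2a D => z.1.2.2 := continuous_snd.comp h2
    exact (continuous_fst.comp h).prodMk ((continuous_fst.comp h2).prodMk
      ((continuous_fst.comp h3).prodMk (continuous_snd.comp h3).neg))

theorem F2a_sg2 (a : ℕ) (D : Set (ℂ × ℂ)) (z : Z2a D) : F2a a D (sg2 D z) = F2a a D z := by
  show z.1.1 * z.1.2.2.1 ^ 2 * ((-z.1.2.2.2) ^ a) ^ 2 = z.1.1 * z.1.2.2.1 ^ 2 * (z.1.2.2.2 ^ a) ^ 2
  rw [← pow_mul, mul_comm a 2, pow_mul, neg_sq, ← pow_mul, ← pow_mul, mul_comm a 2]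

end Pool.Agent.HZ
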