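import Pool.Agent.Lib.MP_3c7f5c_ag.Gen.Local

/-!
# Eigenvalues of the monodromy of `f_a` on the stalks of the nearby cycles
-/

set_option autoImplicit false

open Set

namespace Pool.Agent.HZ

private lemma tubeIncl_deck {n : ℕ} (f : MvPolynomial (Fin n) ℂ) {V U : Set (Fin n → ℂ)}
    (h : V ⊆ U) : (tubeIncl f h).comp (deck f V) = (deck f U).comp (tubeIncl f h) := rfl

private lemma tubeIncl_trans {n : ℕ} (f : MvPolynomial (Fin n) ℂ) {W V U : Set (Fin n → ℂ)}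
    (h : W ⊆ V) (h' : V ⊆ U) :
    (tubeIncl f h').comp (tubeIncl f h) = tubeIncl f (h.trans h') := rfl

/-- if `L` has finite order and does not have the eigenvalue `mu`, then the transpose of `L` does
not have the eigenvalue `mu` -/
private theorem dual_eig {V : Type*} [AddCommGroup V] [Module ℂ V] (L : V →ₗ[ℂ] V) {m : ℕ}
    (hm : 0 < m) (h1 : ∀ b, L^[m] b = b) {mu : ℂ} (h : ∀ b, L b = mu • b → b = 0)
    (c : V →ₗ[ℂ] ℂ) (hc : ∀ b, c (L b) = mu * c b) (b : V) : c b = 0 := by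
  have h2 : ∀ j b, c (L^[j] b) = mu ^ j * c b := by
    intro j
    induction j with
    | zero => simp
    | succ j ih =>
      intro b
      rw [Function.iterate_succ_apply', hc, ih, pow_succ]
      ring
  by_cases hmu : mu ^ m = 1
  · have hmu0 : mu ≠ 0 := by
      rintro rfl
      rw [zero_pow hm.ne'] at hmu
      exact zero_ne_one hmu
    have h3 := h _ (avg_eig L hm h1 hmu b)
    have h4 := congrArg c h3
    rw [map_sum, map_zero] at h4
    have h5 : ∀ j ∈ Finset.range m, c ((mu⁻¹) ^ j • L^[j] b) = c b := by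
      intro j _
      rw [map_smul, h2, smul_eq_mul, ← mul_assoc, ← mul_pow, inv_mul_cancel₀ hmu0, one_pow,
        one_mul]
    rw [Finset.sum_congr rfl h5, Finset.sum_const, Finset.card_range, nsmul_eq_mul] at h4
    have h6 : (m : ℂ) ≠ 0 := by exact_mod_cast hm.ne'
    exact (mul_eq_zero.1 h4).resolve_left h6
  · have h3 := h2 m b
    rw [h1] at h3
    have h4 : (mu ^ m - 1) * c b = 0 := by linear_combination -h3
    exact (mul_eq_zero.1 h4).resolve_left (sub_ne_zero.2 hmu)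

theorem not_eig_of_LSe {n : ℕ} {f : MvPolynomial (Fin n) ℂ} {x : Fin n → ℂ} {lam : ℂ}
    (h : LSe f x lam) (k : ℕ) : ¬ IsMonodromyEigenvalueAt f x k lam := by
  rintro ⟨U, hU, hxU, c, ⟨V1, hV1U, hV1, hxV1, hc⟩, hne⟩
  obtain ⟨V, hV, hxV, hVV1, hK, m, hm, hP⟩ := h V1 hV1 hxV1
  refine hne V (hVV1.trans hV1U) hV hxV (LinearMap.ext fun a => ?_)
  refine dual_eig (Hmap k (deck f V)) hm (hP k) (hK k)
    (Cmap k (tubeIncl f (hVV1.trans hV1U)) c) ?_ a
  intro a
  have h1 := congrArg (fun g : Coh k (Tube f V1) => g (Hmap k (tubeIncl f hVV1) a)) hc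
  have h2 : c (Hmap k (deck f U) (Hmap k (tubeIncl f hV1U) (Hmap k (tubeIncl f hVV1) a))) -
      lam * c (Hmap k (tubeIncl f hV1U) (Hmap k (tubeIncl f hVV1) a)) = 0 := h1
  have h3 : Hmap k (tubeIncl f hV1U) (Hmap k (tubeIncl f hVV1) a) =
      Hmap k (tubeIncl f (hVV1.trans hV1U)) a := by
    rw [← Hmap_comp, tubeIncl_trans]
  rw [h3] at h2
  have h4 : Hmap k (deck f U) (Hmap k (tubeIncl f (hVV1.trans hV1U)) a) =
      Hmap k (tubeIncl f (hVV1.trans hV1U)) (Hmap k (deck f V) a) := by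
    rw [← Hmap_comp, ← Hmap_comp, tubeIncl_deck]
  rw [h4] at h2
  change c (Hmap k (tubeIncl f (hVV1.trans hV1U)) (Hmap k (deck f V) a)) =
    lam * c (Hmap k (tubeIncl f (hVV1.trans hV1U)) a)
  exact sub_eq_zero.mp h2

/-- every eigenvalue `lam` of the monodromy of `f_a` at a point of `f_a⁻¹(0)` satisfies
`lam² = 1`, `lam^a = 1` or `lam^{a+1} = 1` -/
theorem mon_fa (a : ℕ) (ha : 0 < a) (x : Fin 5 → ℂ) (hx : MvPolynomial.eval x (fa a) = 0) (k : ℕ)
    (lam : ℂ) (he : IsMonodromyEigenvalueAt (fa a) x k lam) :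
    lam ^ 2 = 1 ∨ lam ^ a = 1 ∨ lam ^ (a + 1) = 1 := by
  by_contra hcon
  push Not at hcon
  obtain ⟨hl2, hla, hl1⟩ := hcon
  have hl : lam ≠ 1 := by
    rintro rfl
    exact hl2 (one_pow 2)
  refine not_eig_of_LSe ?_ k he
  by_cases h1 : x 0 = 0 ∧ x 1 = 0 ∧ x 2 = 0
  · exact LSe_Z1 a ha hl2 hl1 x h1.1 h1.2.1 h1.2.2
  · by_cases h2 : x 3 = 0 ∧ x 4 = 0 ∧ x 2 = 0
    · exact LSe_Z2 a ha hl2 hl1 x h2.1 h2.2.1 h2.2.2
    · exact LSe_generic a ha hl hl2 hla x hx h1 h2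

theorem mon_fa_order (a : ℕ) (ha : 0 < a) (x : Fin 5 → ℂ)
    (hx : MvPolynomial.eval x (fa a) = 0) (k : ℕ) (lam : ℂ)
    (he : IsMonodromyEigenvalueAt (fa a) x k lam) : ¬ 2 * (a + 1) ∣ orderOf lam := by
  intro hd
  rcases mon_fa a ha x hx k lam he with h | h | h
  · have h4 := Nat.le_of_dvd two_pos (hd.trans (orderOf_dvd_of_pow_eq_one h))
    omega
  · have h4 := Nat.le_of_dvd ha (hd.trans (orderOf_dvd_of_pow_eq_one h))
    omega
  · have h4 := Nat.le_of_dvd (Nat.succ_pos a) (hd.trans (orderOf_dvd_of_pow_eq_one h))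
    omega

end Pool.Agent.HZ
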