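import Pool.Agent.Lib.MP_3c7f5c_ag.Gen.Defs

/-!
# The double covering of the tube of `f_a` over `{(u, v) ∈ D}` is a suspension
-/

set_option autoImplicit false

open Set

namespace Pool.Agent.HZ

theorem eval_fa (a : ℕ) (z : Fin 5 → ℂ) : MvPolynomial.eval z (fa a) =
    (z 0 - z 1 ^ 2) ^ a * (z 3 - z 4 ^ 2) ^ a * (z 0 * z 3 + z 2 ^ 2) := by
  simp [fa]

theorem exp_half_sq (τ : ℂ) : Complex.exp (τ / 2) ^ 2 = Complex.exp τ := by
  rw [← Complex.exp_nat_mul]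
  congr 1
  push_cast
  ring

theorem exp_half_neg (τ : ℂ) : Complex.exp (-τ / 2) * Complex.exp (τ / 2) = 1 := by
  rw [← Complex.exp_add]
  rw [show -τ / 2 + τ / 2 = 0 by ring, Complex.exp_zero]

theorem exp_half_neg_sq (τ : ℂ) : Complex.exp (-τ / 2) ^ 2 * Complex.exp τ = 1 := by
  rw [← exp_half_sq τ, ← mul_pow, exp_half_neg, one_pow]

theorem exp_half_shift (τ : ℂ) :
    Complex.exp (-(τ + 2 * Real.pi * Complex.I) / 2) = - Complex.exp (-τ / 2) := by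
  rw [show -(τ + 2 * Real.pi * Complex.I) / 2 = -τ / 2 - Real.pi * Complex.I by ring,
    Complex.exp_sub, Complex.exp_pi_mul_I]
  ring

theorem ABfun_ne_zero (a : ℕ) (ha : 0 < a) (V : Set (Fin 5 → ℂ)) (p : Tube (fa a) V) :
    ABfun a V p ≠ 0 := by
  intro h0
  have h := p.2.2
  rw [eval_fa] at h
  have h1 : (p.1.1 0 - p.1.1 1 ^ 2) * (p.1.1 3 - p.1.1 4 ^ 2) = 0 := h0
  rw [← mul_pow, h1, zero_pow ha.ne', zero_mul] at h
  exact Complex.exp_ne_zero _ h.symm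

variable (a : ℕ) (ha : 0 < a) (D : Set (ℂ × ℂ))

private theorem sq_pow_eq (p : DCov (ABfun a (Vinf D))) :
    (p.1.1.1.1 0 - p.1.1.1.1 1 ^ 2) ^ a * (p.1.1.1.1 3 - p.1.1.1.1 4 ^ 2) ^ a =
      (p.1.2 ^ a) ^ 2 := by
  have h : p.1.2 ^ 2 = (p.1.1.1.1 0 - p.1.1.1.1 1 ^ 2) * (p.1.1.1.1 3 - p.1.1.1.1 4 ^ 2) := p.2
  rw [← mul_pow, ← h, ← pow_mul, ← pow_mul, mul_comm]

include ha in
private theorem s_ne (p : DCov (ABfun a (Vinf D))) : p.1.2 ≠ 0 := by
  intro h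
  have h2 : p.1.2 ^ 2 = ABfun a (Vinf D) p.1.1 := p.2
  apply ABfun_ne_zero a ha (Vinf D) p.1.1
  rw [← h2, h]
  ring

/-- the forward map -/
private noncomputable def fwd (p : DCov (ABfun a (Vinf D))) : Susp (F1a a D) :=
  ⟨(⟨(p.1.1.1.1 0, p.1.1.1.1 1, p.1.1.1.1 3, p.1.1.1.1 4, p.1.2), p.2, s_ne a ha D p,
    p.1.1.2.1⟩, p.1.1.1.2, p.1.1.1.1 2 * p.1.2 ^ a * Complex.exp (-p.1.1.1.2 / 2)), by
    show p.1.1.1.1 0 * p.1.1.1.1 3 * (p.1.2 ^ a) ^ 2 = (1 - (p.1.1.1.1 2 * p.1.2 ^ a *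
      Complex.exp (-p.1.1.1.2 / 2)) ^ 2) * Complex.exp p.1.1.1.2
    have h := p.1.1.2.2
    rw [eval_fa, sq_pow_eq] at h
    have h3 := exp_half_neg_sq p.1.1.1.2
    linear_combination h + (p.1.1.1.1 2 * p.1.2 ^ a) ^ 2 * h3⟩

/-- the coordinates of the backward map -/
private noncomputable def bwdv (p : Susp (F1a a D)) : Fin 5 → ℂ :=
  ![p.1.1.1.1, p.1.1.1.2.1, p.1.2.2 * Complex.exp (p.1.2.1 / 2) / p.1.1.1.2.2.2.2 ^ a,
    p.1.1.1.2.2.1, p.1.1.1.2.2.2.1]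

private theorem bwd_eq (p : Susp (F1a a D)) :
    MvPolynomial.eval (bwdv a D p) (fa a) = Complex.exp p.1.2.1 := by
  rw [eval_fa]
  have h : p.1.1.1.1 * p.1.1.1.2.2.1 * (p.1.1.1.2.2.2.2 ^ a) ^ 2 =
      (1 - p.1.2.2 ^ 2) * Complex.exp p.1.2.1 := p.2
  have h1 : p.1.1.1.2.2.2.2 ^ 2 = (p.1.1.1.1 - p.1.1.1.2.1 ^ 2) *
    (p.1.1.1.2.2.1 - p.1.1.1.2.2.2.1 ^ 2) := p.1.1.2.1
  have h2 : p.1.1.1.2.2.2.2 ^ a ≠ 0 := pow_ne_zero _ p.1.1.2.2.1
  have h3 := exp_half_sq p.1.2.1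
  change (p.1.1.1.1 - p.1.1.1.2.1 ^ 2) ^ a * (p.1.1.1.2.2.1 - p.1.1.1.2.2.2.1 ^ 2) ^ a *
    (p.1.1.1.1 * p.1.1.1.2.2.1 + (p.1.2.2 * Complex.exp (p.1.2.1 / 2) /
      p.1.1.1.2.2.2.2 ^ a) ^ 2) = _
  have h4 : (p.1.1.1.1 - p.1.1.1.2.1 ^ 2) ^ a * (p.1.1.1.2.2.1 - p.1.1.1.2.2.2.1 ^ 2) ^ a =
      (p.1.1.1.2.2.2.2 ^ a) ^ 2 := by
    rw [← mul_pow, ← h1, ← pow_mul, ← pow_mul, mul_comm]
  have h5 : (p.1.1.1.2.2.2.2 ^ a) ^ 2 * (p.1.2.2 * Complex.exp (p.1.2.1 / 2) /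
      p.1.1.1.2.2.2.2 ^ a) ^ 2 = p.1.2.2 ^ 2 * Complex.exp p.1.2.1 := by
    rw [← h3]
    field_simp
  rw [h4]
  linear_combination h + h5

/-- the backward map -/
private noncomputable def bwd (p : Susp (F1a a D)) : DCov (ABfun a (Vinf D)) :=
  ⟨(⟨(bwdv a D p, p.1.2.1), p.1.1.2.2.2, bwd_eq a D p⟩, p.1.1.1.2.2.2.2), p.1.1.2.1⟩

private theorem continuous_fwd : Continuous (fwd a ha D) := by
  have h : Continuous fun p : DCov (ABfun a (Vinf D)) => p.1 := continuous_subtype_val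
  have h2 : Continuous fun p : DCov (ABfun a (Vinf D)) => p.1.1.1 :=
    continuous_subtype_val.comp (continuous_fst.comp h)
  have hz : ∀ i : Fin 5, Continuous fun p : DCov (ABfun a (Vinf D)) => p.1.1.1.1 i := fun i =>
    (continuous_apply i).comp (continuous_fst.comp h2)
  have ht : Continuous fun p : DCov (ABfun a (Vinf D)) => p.1.1.1.2 := continuous_snd.comp h2
  have hs : Continuous fun p : DCov (ABfun a (Vinf D)) => p.1.2 := continuous_snd.comp h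
  refine Continuous.subtype_mk ?_ _
  refine Continuous.prodMk ?_ (Continuous.prodMk ht ?_)
  · refine Continuous.subtype_mk ?_ _
    exact (hz 0).prodMk ((hz 1).prodMk ((hz 3).prodMk ((hz 4).prodMk hs)))
  · exact ((hz 2).mul (hs.pow a)).mul (Complex.continuous_exp.comp (ht.neg.div_const 2))

private theorem continuous_bwd : Continuous (bwd a D) := by
  have h : Continuous fun p : Susp (F1a a D) => p.1 := continuous_subtype_val
  have h1 : Continuous fun p : Susp (F1a a D) => p.1.1.1 :=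
    continuous_subtype_val.comp (continuous_fst.comp h)
  have h2 : Continuous fun p : Susp (F1a a D) => p.1.1.1.2 := continuous_snd.comp h1
  have h3 : Continuous fun p : Susp (F1a a D) => p.1.1.1.2.2 := continuous_snd.comp h2
  have h4 : Continuous fun p : Susp (F1a a D) => p.1.1.1.2.2.2 := continuous_snd.comp h3
  have hx : Continuous fun p : Susp (F1a a D) => p.1.1.1.1 := continuous_fst.comp h1
  have hy : Continuous fun p : Susp (F1a a D) => p.1.1.1.2.1 := continuous_fst.comp h2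
  have hu : Continuous fun p : Susp (F1a a D) => p.1.1.1.2.2.1 := continuous_fst.comp h3
  have hv : Continuous fun p : Susp (F1a a D) => p.1.1.1.2.2.2.1 := continuous_fst.comp h4
  have hs : Continuous fun p : Susp (F1a a D) => p.1.1.1.2.2.2.2 := continuous_snd.comp h4
  have ht : Continuous fun p : Susp (F1a a D) => p.1.2.1 :=
    continuous_fst.comp (continuous_snd.comp h)
  have hq : Continuous fun p : Susp (F1a a D) => p.1.2.2 :=
    continuous_snd.comp (continuous_snd.comp h)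
  refine Continuous.subtype_mk (Continuous.prodMk
    (Continuous.subtype_mk (Continuous.prodMk ?_ ht) _) hs) _
  refine continuous_pi fun i => ?_
  fin_cases i
  · exact hx
  · exact hy
  · refine Continuous.div (hq.mul (Complex.continuous_exp.comp (ht.div_const 2)))
      (hs.pow a) fun p => ?_
    exact pow_ne_zero _ p.1.1.2.2.1
  · exact hu
  · exact hv

include ha in
theorem homeo1a : ∃ e : DCov (ABfun a (Vinf D)) ≃ₜ Susp (F1a a D),
    (∀ p, e (DCov.lift (ABfun a (Vinf D)) (deck (fa a) (Vinf D)) (fun _ => rfl) p) =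
      Susp.T (F1a a D) (e p)) ∧
    ∀ p, e (DCov.neg (ABfun a (Vinf D)) p) =
      Susp.S (F1a a D) (sg1 D) (F1a_sg1 a D) ((-1) ^ a) (sgn_sq a) (e p) := by
  refine ⟨{ toFun := fwd a ha D
            invFun := bwd a D
            left_inv := ?_
            right_inv := ?_
            continuous_toFun := continuous_fwd a ha D
            continuous_invFun := continuous_bwd a D }, ?_, ?_⟩
  · intro p
    apply Subtype.ext
    refine Prod.ext (Subtype.ext (Prod.ext ?_ rfl)) rfl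
    funext i
    fin_cases i
    · rfl
    · rfl
    · change p.1.1.1.1 2 * p.1.2 ^ a * Complex.exp (-p.1.1.1.2 / 2) *
        Complex.exp (p.1.1.1.2 / 2) / p.1.2 ^ a = p.1.1.1.1 2
      have h1 : p.1.2 ^ a ≠ 0 := pow_ne_zero _ (s_ne a ha D p)
      rw [mul_assoc _ (Complex.exp (-p.1.1.1.2 / 2)), exp_half_neg]
      field_simp
    · rfl
    · rfl
  · intro p
    apply Subtype.ext
    refine Prod.ext rfl (Prod.ext rfl ?_)
    change p.1.2.2 * Complex.exp (p.1.2.1 / 2) / p.1.1.1.2.2.2.2 ^ a * p.1.1.1.2.2.2.2 ^ a *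
      Complex.exp (-p.1.2.1 / 2) = p.1.2.2
    have h2 : p.1.1.1.2.2.2.2 ^ a ≠ 0 := pow_ne_zero _ p.1.1.2.2.1
    have h3 := exp_half_neg p.1.2.1
    rw [div_mul_cancel₀ _ h2, mul_assoc, mul_comm (Complex.exp (p.1.2.1 / 2)), h3, mul_one]
  · intro p
    apply Subtype.ext
    refine Prod.ext rfl (Prod.ext rfl ?_)
    change p.1.1.1.1 2 * p.1.2 ^ a * Complex.exp (-(p.1.1.1.2 + 2 * Real.pi * Complex.I) / 2) =
      -(p.1.1.1.1 2 * p.1.2 ^ a * Complex.exp (-p.1.1.1.2 / 2))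
    rw [exp_half_shift]
    ring
  · intro p
    apply Subtype.ext
    refine Prod.ext rfl (Prod.ext rfl ?_)
    change p.1.1.1.1 2 * (-p.1.2) ^ a * Complex.exp (-p.1.1.1.2 / 2) =
      (-1) ^ a * (p.1.1.1.1 2 * p.1.2 ^ a * Complex.exp (-p.1.1.1.2 / 2))
    rw [neg_pow]
    ring

/-- the circle action on `Z1a D` -/
theorem F1a_circle : ∃ ρ : C(ℝ × Z1a D, Z1a D), (∀ z, ρ (0, z) = z) ∧
    (∀ z, ρ (2 * Real.pi, z) = z) ∧
    ∀ θ z, F1a a D (ρ (θ, z)) =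
      Complex.exp (((2 * (a + 1) : ℕ) : ℂ) * θ * Complex.I) * F1a a D z := by
  have hz : Continuous fun b : ℝ × Z1a D => b.2.1 := continuous_subtype_val.comp continuous_snd
  have h2 : Continuous fun b : ℝ × Z1a D => b.2.1.2 := continuous_snd.comp hz
  have h3 : Continuous fun b : ℝ × Z1a D => b.2.1.2.2 := continuous_snd.comp h2
  have h4 : Continuous fun b : ℝ × Z1a D => b.2.1.2.2.2 := continuous_snd.comp h3
  have hθ : Continuous fun b : ℝ × Z1a D => Complex.exp ((b.1 : ℂ) * Complex.I) :=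
    Complex.continuous_exp.comp
      ((Complex.continuous_ofReal.comp continuous_fst).mul continuous_const)
  refine ⟨⟨fun b => ⟨(Complex.exp ((b.1 : ℂ) * Complex.I) ^ 2 * b.2.1.1,
      Complex.exp ((b.1 : ℂ) * Complex.I) * b.2.1.2.1, b.2.1.2.2.1, b.2.1.2.2.2.1,
      Complex.exp ((b.1 : ℂ) * Complex.I) * b.2.1.2.2.2.2), ?_,
      mul_ne_zero (Complex.exp_ne_zero _) b.2.2.2.1, b.2.2.2.2⟩, ?_⟩, ?_, ?_, ?_⟩
  · have h : b.2.1.2.2.2.2 ^ 2 = (b.2.1.1 - b.2.1.2.1 ^ 2) *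
      (b.2.1.2.2.1 - b.2.1.2.2.2.1 ^ 2) := b.2.2.1
    show (Complex.exp ((b.1 : ℂ) * Complex.I) * b.2.1.2.2.2.2) ^ 2 =
      (Complex.exp ((b.1 : ℂ) * Complex.I) ^ 2 * b.2.1.1 -
        (Complex.exp ((b.1 : ℂ) * Complex.I) * b.2.1.2.1) ^ 2) *
        (b.2.1.2.2.1 - b.2.1.2.2.2.1 ^ 2)
    rw [mul_pow, h]
    ring
  · refine Continuous.subtype_mk ?_ _
    exact ((hθ.pow 2).mul (continuous_fst.comp hz)).prodMk
      ((hθ.mul (continuous_fst.comp h2)).prodMk ((continuous_fst.comp h3).prodMk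
        ((continuous_fst.comp h4).prodMk (hθ.mul (continuous_snd.comp h4)))))
  · intro z
    apply Subtype.ext
    show (Complex.exp (((0 : ℝ) : ℂ) * Complex.I) ^ 2 * z.1.1,
      Complex.exp (((0 : ℝ) : ℂ) * Complex.I) * z.1.2.1, z.1.2.2.1, z.1.2.2.2.1,
      Complex.exp (((0 : ℝ) : ℂ) * Complex.I) * z.1.2.2.2.2) = z.1
    simp
  · intro z
    apply Subtype.ext
    show (Complex.exp (((2 * Real.pi : ℝ) : ℂ) * Complex.I) ^ 2 * z.1.1,
      Complex.exp (((2 * Real.pi : ℝ) : ℂ) * Complex.I) * z.1.2.1, z.1.2.2.1, z.1.2.2.2.1,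
      Complex.exp (((2 * Real.pi : ℝ) : ℂ) * Complex.I) * z.1.2.2.2.2) = z.1
    have h1 : Complex.exp (((2 * Real.pi : ℝ) : ℂ) * Complex.I) = 1 := by
      push_cast
      exact Complex.exp_two_pi_mul_I
    rw [h1]
    simp
  · intro θ z
    show Complex.exp ((θ : ℂ) * Complex.I) ^ 2 * z.1.1 * z.1.2.2.1 *
      ((Complex.exp ((θ : ℂ) * Complex.I) * z.1.2.2.2.2) ^ a) ^ 2 =
      Complex.exp (((2 * (a + 1) : ℕ) : ℂ) * θ * Complex.I) *
        (z.1.1 * z.1.2.2.1 * (z.1.2.2.2.2 ^ a) ^ 2)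
    have h1 : Complex.exp (((2 * (a + 1) : ℕ) : ℂ) * θ * Complex.I) =
        Complex.exp ((θ : ℂ) * Complex.I) ^ (2 * (a + 1)) := by
      rw [← Complex.exp_nat_mul, mul_assoc]
    rw [h1, mul_pow]
    ring

end Pool.Agent.HZ
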