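import Pool.Agent.Lib.MP_3c7f5c_ag.Gen.JN

/-!
# Common eigenvectors of the monodromy and of an involution on the suspension
-/

set_option autoImplicit false

open Set

namespace Pool.Agent.HZ

private theorem sgn_cases {e : ℂ} (he : e ^ 2 = 1) : e = 1 ∨ e = -1 := by
  have h : (e - 1) * (e + 1) = 0 := by linear_combination he
  rcases mul_eq_zero.1 h with h | h
  · left; linear_combination h
  · right; linear_combination h

section
variable {Z : Type} [TopologicalSpace Z] (F : C(Z, ℂ)) (σ : C(Z, Z)) (hσ : ∀ z, F (σ z) = F z)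
  (e : ℂ) (he : e ^ 2 = 1)

private theorem S_Up_Up (h1 : e = 1) : MapsTo (Susp.S F σ hσ e he) (Up F) (Up F) := by
  intro p hp
  have h : -1 / 2 < p.1.2.2.re := hp
  show -1 / 2 < (e * p.1.2.2).re
  rw [h1, one_mul]
  exact h

private theorem S_Um_Um (h1 : e = 1) : MapsTo (Susp.S F σ hσ e he) (Um F) (Um F) := by
  intro p hp
  have h : p.1.2.2.re < 1 / 2 := hp
  show (e * p.1.2.2).re < 1 / 2
  rw [h1, one_mul]
  exact h

private theorem S_Up_Um (h1 : e = -1) : MapsTo (Susp.S F σ hσ e he) (Up F) (Um F) := by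
  intro p hp
  have h : -1 / 2 < p.1.2.2.re := hp
  show (e * p.1.2.2).re < 1 / 2
  rw [h1, neg_one_mul, Complex.neg_re]
  linarith

private theorem S_Um_Up (h1 : e = -1) : MapsTo (Susp.S F σ hσ e he) (Um F) (Up F) := by
  intro p hp
  have h : p.1.2.2.re < 1 / 2 := hp
  show -1 / 2 < (e * p.1.2.2).re
  rw [h1, neg_one_mul, Complex.neg_re]
  linarith

theorem mapsTo_S_inter : MapsTo (Susp.S F σ hσ e he) (Up F ∩ Um F) (Up F ∩ Um F) := by
  rcases sgn_cases he with h1 | h1
  · exact fun _ hp => ⟨S_Up_Up F σ hσ e he h1 hp.1, S_Um_Um F σ hσ e he h1 hp.2⟩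
  · exact fun _ hp => ⟨S_Um_Up F σ hσ e he h1 hp.2, S_Up_Um F σ hσ e he h1 hp.1⟩

private theorem rmap_commS : (rmap F).comp (restrC _ (mapsTo_S_inter F σ hσ e he)) =
    (Cov.S F σ hσ).comp (rmap F) := by
  ext1 p
  apply Subtype.ext
  refine Prod.ext rfl ?_
  change p.1.1.2.1 + Complex.log (1 - (e * p.1.1.2.2) ^ 2) =
    p.1.1.2.1 + Complex.log (1 - p.1.1.2.2 ^ 2)
  rw [mul_pow, he, one_mul]

theorem mid_jnoEig {mu eps : ℂ} (h : JNoEig (Cov.deck F) (Cov.S F σ hσ) mu eps) :
    JNoEig (restrC _ (mapsTo_T_inter F)) (restrC _ (mapsTo_S_inter F σ hσ e he)) mu eps := by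
  intro k a ha ha'
  have h1 : Hmap k (Cov.deck F) (Hmap k (rmap F) a) = mu • Hmap k (rmap F) a := by
    rw [← Hmap_comp, ← rmap_comm, Hmap_comp, ha, map_smul]
  have h1' : Hmap k (Cov.S F σ hσ) (Hmap k (rmap F) a) = eps • Hmap k (rmap F) a := by
    rw [← Hmap_comp, ← rmap_commS F σ hσ e he, Hmap_comp, ha', map_smul]
  have h2 := h k _ h1 h1'
  have h3 : Hmap k (imap F) (Hmap k (rmap F) a) = a := by
    rw [← Hmap_comp, Hmap_homotopic k (imap_rmap F), Hmap_id]
  rw [← h3, h2, map_zero]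

/-- the boundary map and the involution -/
private theorem mv_S (k : ℕ) (a : Hl (k + 1) (Susp F)) :
    mvδ (isOpen_Up F) (isOpen_Um F) (Up_union_Um F) k (Hmap (k + 1) (Susp.S F σ hσ e he) a) =
      e • Hmap k (restrC _ (mapsTo_S_inter F σ hσ e he))
        (mvδ (isOpen_Up F) (isOpen_Um F) (Up_union_Um F) k a) := by
  rcases sgn_cases he with h1 | h1
  · rw [mv_nat (isOpen_Up F) (isOpen_Um F) (Up_union_Um F) k (isOpen_Up F) (isOpen_Um F)
      (Up_union_Um F) (Susp.S F σ hσ e he) (S_Up_Up F σ hσ e he h1) (S_Um_Um F σ hσ e he h1)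
      (mapsTo_S_inter F σ hσ e he) a]
    have h3 : ∀ x : Hl k (Up F ∩ Um F : Set (Susp F)), x = e • x := fun x => by rw [h1, one_smul]
    exact h3 _
  · rw [mv_swap (isOpen_Up F) (isOpen_Um F) (Up_union_Um F) k (isOpen_Up F) (isOpen_Um F)
      (Up_union_Um F) (Susp.S F σ hσ e he) (S_Up_Um F σ hσ e he h1) (S_Um_Up F σ hσ e he h1)
      (mapsTo_S_inter F σ hσ e he) a]
    have h3 : ∀ x : Hl k (Up F ∩ Um F : Set (Susp F)), -x = e • x := fun x => by
      rw [h1, neg_one_smul]
    exact h3 _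

theorem susp_jnoEig (lam eps : ℂ) (h2 : lam ^ 2 ≠ 1)
    (h : JNoEig (Cov.deck F) (Cov.S F σ hσ) (-lam) (e * eps)) :
    JNoEig (Susp.T F) (Susp.S F σ hσ e he) lam eps := by
  intro k a ha ha'
  rcases k with _ | k
  · obtain ⟨a₁, a₂, h12⟩ := mv_zero_surj (isOpen_Up F) (isOpen_Um F) (Up_union_Um F) a
    exact eig_zero F h2 a ha a₁ a₂ h12
  · have hs := mv_swap (isOpen_Up F) (isOpen_Um F) (Up_union_Um F) k (isOpen_Up F) (isOpen_Um F)
      (Up_union_Um F) (Susp.T F) (mapsTo_T_Up F) (mapsTo_T_Um F) (mapsTo_T_inter F) a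
    have hs' := mv_S F σ hσ e he k a
    rw [ha, map_smul] at hs
    rw [ha', map_smul] at hs'
    have he' : e * e = 1 := by rw [← pow_two, he]
    have hc : mvδ (isOpen_Up F) (isOpen_Um F) (Up_union_Um F) k a = 0 := by
      refine mid_jnoEig F σ hσ e he h k _ ?_ ?_
      · rw [neg_smul, hs, neg_neg]
      · rw [mul_smul, hs', smul_smul, he', one_smul]
    obtain ⟨a₁, a₂, h12⟩ :=
      (mv_exact_X (isOpen_Up F) (isOpen_Um F) (Up_union_Um F) k a).mp hc
    exact eig_zero F h2 a ha a₁ a₂ h12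

end

section
variable {Z : Type} [TopologicalSpace Z] (F : C(Z, ℂ))

/-- `(z, τ, q) ↦ (z, τ + 2πi m, (-1)^m q)` -/
private noncomputable def suspN (m : ℕ) : C(Susp F, Susp F) where
  toFun p := ⟨(p.1.1, p.1.2.1 + m * (2 * Real.pi * Complex.I), (-1) ^ m * p.1.2.2), by
    rw [p.2, Complex.exp_add, Complex.exp_nat_mul, Complex.exp_two_pi_mul_I, one_pow, mul_one,
      mul_pow, sgn_sq, one_mul]⟩
  continuous_toFun := by
    refine Continuous.subtype_mk ?_ _
    have h1 : Continuous fun p : Susp F => p.1 := continuous_subtype_val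
    exact (continuous_fst.comp h1).prodMk
      (((continuous_fst.comp (continuous_snd.comp h1)).add continuous_const).prodMk
        (continuous_const.mul (continuous_snd.comp (continuous_snd.comp h1))))

private theorem Hmap_suspN (k m : ℕ) (a : Hl k (Susp F)) :
    Hmap k (suspN F m) a = (Hmap k (Susp.T F))^[m] a := by
  induction m with
  | zero =>
    have h : suspN F 0 = ContinuousMap.id _ := by
      ext p
      apply Subtype.ext
      show (p.1.1, p.1.2.1 + ((0 : ℕ) : ℂ) * (2 * Real.pi * Complex.I), (-1) ^ 0 * p.1.2.2) = p.1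
      simp
    rw [h, Hmap_id]
    rfl
  | succ m ih =>
    have h : suspN F (m + 1) = (Susp.T F).comp (suspN F m) := by
      ext p
      apply Subtype.ext
      show (p.1.1, p.1.2.1 + ((m + 1 : ℕ) : ℂ) * (2 * Real.pi * Complex.I),
          (-1) ^ (m + 1) * p.1.2.2) =
        (p.1.1, p.1.2.1 + (m : ℂ) * (2 * Real.pi * Complex.I) + 2 * Real.pi * Complex.I,
          -((-1) ^ m * p.1.2.2))
      refine Prod.ext rfl (Prod.ext ?_ ?_)
      · show p.1.2.1 + ((m + 1 : ℕ) : ℂ) * (2 * Real.pi * Complex.I) =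
          p.1.2.1 + (m : ℂ) * (2 * Real.pi * Complex.I) + 2 * Real.pi * Complex.I
        push_cast
        ring
      · show (-1) ^ (m + 1) * p.1.2.2 = -((-1) ^ m * p.1.2.2)
        ring
    rw [h, Hmap_comp, ih, Function.iterate_succ_apply']

/-- `F(ρ_θ z) = e^{imθ} F(z)` for a circle action `ρ` and `m` even: then `T^m ≃ id` on the
suspension -/
theorem susp_powOne (ρ : C(ℝ × Z, Z)) (h0 : ∀ z, ρ (0, z) = z)
    (h1 : ∀ z, ρ (2 * Real.pi, z) = z) (m : ℕ) (hm : Even m)
    (hρ : ∀ θ z, F (ρ (θ, z)) = Complex.exp (m * θ * Complex.I) * F z) :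
    PowOne (Susp.T F) m := by
  intro k a
  rw [← Hmap_suspN]
  have hmem : ∀ (θ : ℝ) (p : Susp F), F (ρ (θ, p.1.1)) =
      (1 - p.1.2.2 ^ 2) * Complex.exp (p.1.2.1 + m * θ * Complex.I) := by
    intro θ p
    rw [hρ, p.2, Complex.exp_add]
    ring
  let H : ContinuousMap.Homotopy (ContinuousMap.id (Susp F)) (suspN F m) :=
    { toFun := fun q => ⟨(ρ (2 * Real.pi * (q.1 : ℝ), q.2.1.1),
        q.2.1.2.1 + m * ((2 * Real.pi * (q.1 : ℝ) : ℝ) : ℂ) * Complex.I, q.2.1.2.2),
        hmem (2 * Real.pi * (q.1 : ℝ)) q.2⟩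
      continuous_toFun := by
        refine Continuous.subtype_mk ?_ _
        have c1 : Continuous fun q : unitInterval × Susp F => q.2.1 :=
          continuous_subtype_val.comp continuous_snd
        have c2 : Continuous fun q : unitInterval × Susp F => (2 * Real.pi * (q.1 : ℝ) : ℝ) :=
          continuous_const.mul (continuous_subtype_val.comp continuous_fst)
        have c3 : Continuous fun q : unitInterval × Susp F =>
            ρ (2 * Real.pi * (q.1 : ℝ), q.2.1.1) :=
          ρ.continuous.comp (c2.prodMk (continuous_fst.comp c1))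
        refine c3.prodMk (Continuous.prodMk ?_ (continuous_snd.comp (continuous_snd.comp c1)))
        refine (continuous_fst.comp (continuous_snd.comp c1)).add ?_
        exact (continuous_const.mul (Complex.continuous_ofReal.comp c2)).mul continuous_const
      map_zero_left := by
        intro p
        apply Subtype.ext
        have e1 : (2 * Real.pi * (((0 : unitInterval) : unitInterval) : ℝ) : ℝ) = 0 := by simp
        show (ρ (2 * Real.pi * ((0 : unitInterval) : ℝ), p.1.1),
          p.1.2.1 + m * ((2 * Real.pi * ((0 : unitInterval) : ℝ) : ℝ) : ℂ) * Complex.I, p.1.2.2) = p.1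
        rw [e1, h0]
        simp
      map_one_left := by
        intro p
        apply Subtype.ext
        have e1 : (2 * Real.pi * (((1 : unitInterval) : unitInterval) : ℝ) : ℝ) = 2 * Real.pi := by
          simp
        show (ρ (2 * Real.pi * ((1 : unitInterval) : ℝ), p.1.1),
          p.1.2.1 + m * ((2 * Real.pi * ((1 : unitInterval) : ℝ) : ℝ) : ℂ) * Complex.I, p.1.2.2) =
          (p.1.1, p.1.2.1 + (m : ℂ) * (2 * Real.pi * Complex.I), (-1) ^ m * p.1.2.2)
        rw [e1, h1, hm.neg_one_pow, one_mul]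
        refine Prod.ext rfl (Prod.ext ?_ rfl)
        show p.1.2.1 + m * ((2 * Real.pi : ℝ) : ℂ) * Complex.I =
          p.1.2.1 + (m : ℂ) * (2 * Real.pi * Complex.I)
        push_cast
        ring }
  rw [← Hmap_homotopic k ⟨H⟩, Hmap_id]

/-- `F(ρ_θ z) = e^{imθ} F(z)` for a flow `ρ` with `ρ_π = σ`, where `F ∘ σ = F` and `m = 2 c`:
then `σ ∘ T^c ≃ id` on the covering -/
theorem cov_half (σ : C(Z, Z)) (hσ : ∀ z, F (σ z) = F z) (ρ : C(ℝ × Z, Z))
    (h0 : ∀ z, ρ (0, z) = z) (h1 : ∀ z, ρ (Real.pi, z) = σ z) (c : ℕ)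
    (hρ : ∀ θ z, F (ρ (θ, z)) = Complex.exp (((2 * c : ℕ) : ℂ) * θ * Complex.I) * F z)
    (k : ℕ) (a : Hl k (Cov F)) :
    Hmap k (Cov.S F σ hσ) ((Hmap k (Cov.deck F))^[c] a) = a := by
  have hN : ∀ n : ℕ, ∃ N : C(Cov F, Cov F), (∀ p, (N p).1 =
      (p.1.1, p.1.2 + n * (2 * Real.pi * Complex.I))) ∧
      ∀ a : Hl k (Cov F), Hmap k N a = (Hmap k (Cov.deck F))^[n] a := by
    intro n
    induction n with
    | zero =>
      refine ⟨ContinuousMap.id _, fun p => ?_, fun a => Hmap_id k a⟩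
      simp
    | succ n ih =>
      obtain ⟨N, h2, h3⟩ := ih
      refine ⟨(Cov.deck F).comp N, fun p => ?_, fun a => ?_⟩
      · show ((N p).1.1, (N p).1.2 + 2 * Real.pi * Complex.I) = _
        rw [h2]
        refine Prod.ext rfl ?_
        show p.1.2 + n * (2 * Real.pi * Complex.I) + 2 * Real.pi * Complex.I =
          p.1.2 + ((n + 1 : ℕ) : ℂ) * (2 * Real.pi * Complex.I)
        push_cast
        ring
      · rw [Hmap_comp, h3, Function.iterate_succ_apply']
  obtain ⟨N, h2, h3⟩ := hN c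
  rw [← h3, ← Hmap_comp]
  have hmem : ∀ (θ : ℝ) (p : Cov F), F (ρ (θ, p.1.1)) =
      Complex.exp (p.1.2 + ((2 * c : ℕ) : ℂ) * θ * Complex.I) := by
    intro θ p
    rw [hρ, p.2, Complex.exp_add]
    ring
  let H : ContinuousMap.Homotopy (ContinuousMap.id (Cov F)) ((Cov.S F σ hσ).comp N) :=
    { toFun := fun q => ⟨(ρ (Real.pi * (q.1 : ℝ), q.2.1.1),
        q.2.1.2 + ((2 * c : ℕ) : ℂ) * ((Real.pi * (q.1 : ℝ) : ℝ) : ℂ) * Complex.I),
        hmem (Real.pi * (q.1 : ℝ)) q.2⟩
      continuous_toFun := by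
        refine Continuous.subtype_mk ?_ _
        have c1 : Continuous fun q : unitInterval × Cov F => q.2.1 :=
          continuous_subtype_val.comp continuous_snd
        have c2 : Continuous fun q : unitInterval × Cov F => (Real.pi * (q.1 : ℝ) : ℝ) :=
          continuous_const.mul (continuous_subtype_val.comp continuous_fst)
        have c3 : Continuous fun q : unitInterval × Cov F => ρ (Real.pi * (q.1 : ℝ), q.2.1.1) :=
          ρ.continuous.comp (c2.prodMk (continuous_fst.comp c1))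
        refine c3.prodMk ?_
        refine (continuous_snd.comp c1).add ?_
        exact (continuous_const.mul (Complex.continuous_ofReal.comp c2)).mul continuous_const
      map_zero_left := by
        intro p
        apply Subtype.ext
        have e1 : (Real.pi * (((0 : unitInterval) : unitInterval) : ℝ) : ℝ) = 0 := by simp
        show (ρ (Real.pi * ((0 : unitInterval) : ℝ), p.1.1),
          p.1.2 + ((2 * c : ℕ) : ℂ) * ((Real.pi * ((0 : unitInterval) : ℝ) : ℝ) : ℂ) * Complex.I) = p.1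
        rw [e1, h0]
        simp
      map_one_left := by
        intro p
        apply Subtype.ext
        have e1 : (Real.pi * (((1 : unitInterval) : unitInterval) : ℝ) : ℝ) = Real.pi := by
          simp
        show (ρ (Real.pi * ((1 : unitInterval) : ℝ), p.1.1),
          p.1.2 + ((2 * c : ℕ) : ℂ) * ((Real.pi * ((1 : unitInterval) : ℝ) : ℝ) : ℂ) * Complex.I) =
          (σ (N p).1.1, (N p).1.2)
        rw [e1, h1, h2]
        refine Prod.ext rfl ?_
        show p.1.2 + ((2 * c : ℕ) : ℂ) * ((Real.pi : ℝ) : ℂ) * Complex.I =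
          p.1.2 + c * (2 * Real.pi * Complex.I)
        push_cast
        ring }
  rw [← Hmap_homotopic k ⟨H⟩, Hmap_id]

end

end Pool.Agent.HZ
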