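import Pool.Agent.Lib.MP_3c7f5c_ag.Gen.Homeo1
import Pool.Agent.Lib.MP_3c7f5c_ag.Gen.Susp

/-!
# The double covering of `Cov F₁` is a suspension
-/

set_option autoImplicit false

open Set

namespace Pool.Agent.HZ

variable (a : ℕ) (D : Set (ℂ × ℂ))

theorem uFa_ne_zero (p : Cov (F1a a D)) : uFa a D p ≠ 0 := by
  intro h
  have h1 : p.1.1.1.1 * p.1.1.1.2.2.1 * (p.1.1.1.2.2.2.2 ^ a) ^ 2 = Complex.exp p.1.2 := p.2
  have h3 : p.1.1.1.2.2.1 = 0 := h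
  rw [h3, mul_zero, zero_mul] at h1
  exact Complex.exp_ne_zero _ h1.symm

private theorem t_ne (p : DCov (uFa a D)) : p.1.2 ≠ 0 := by
  intro h
  have h2 : p.1.2 ^ 2 = uFa a D p.1.1 := p.2
  apply uFa_ne_zero a D p.1.1
  rw [← h2, h]
  ring

private noncomputable def hm2_to (p : DCov (uFa a D)) : Susp (F2a a D) :=
  ⟨(⟨(p.1.1.1.1.1.1 - p.1.1.1.1.1.2.1 ^ 2, p.1.1.1.1.1.2.2.2.1, p.1.2,
      p.1.1.1.1.1.2.2.2.2), by
    have hs : p.1.2 ^ 2 = p.1.1.1.1.1.2.2.1 := p.2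
    refine ⟨?_, p.1.1.1.1.2.2.1, t_ne a D p, ?_⟩
    · show p.1.1.1.1.1.2.2.2.2 ^ 2 = (p.1.1.1.1.1.1 - p.1.1.1.1.1.2.1 ^ 2) *
        (p.1.2 ^ 2 - p.1.1.1.1.1.2.2.2.1 ^ 2)
      rw [hs]
      exact p.1.1.1.1.2.1
    · show (p.1.2 ^ 2, p.1.1.1.1.1.2.2.2.1) ∈ D
      rw [hs]
      exact p.1.1.1.1.2.2.2⟩, p.1.1.1.2,
      p.1.1.1.1.1.2.1 * p.1.1.1.1.1.2.2.2.2 ^ a * p.1.2 * Complex.exp (-p.1.1.1.2 / 2)), by
    have hs : p.1.2 ^ 2 = p.1.1.1.1.1.2.2.1 := p.2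
    have h1 : p.1.1.1.1.1.1 * p.1.1.1.1.1.2.2.1 * (p.1.1.1.1.1.2.2.2.2 ^ a) ^ 2 =
      Complex.exp p.1.1.1.2 := p.1.1.2
    show (p.1.1.1.1.1.1 - p.1.1.1.1.1.2.1 ^ 2) * p.1.2 ^ 2 * (p.1.1.1.1.1.2.2.2.2 ^ a) ^ 2 =
      (1 - (p.1.1.1.1.1.2.1 * p.1.1.1.1.1.2.2.2.2 ^ a * p.1.2 *
        Complex.exp (-p.1.1.1.2 / 2)) ^ 2) * Complex.exp p.1.1.1.2
    have h2 := exp_half_neg_sq p.1.1.1.2
    rw [← hs] at h1
    linear_combination (p.1.1.1.1.1.2.1 * p.1.1.1.1.1.2.2.2.2 ^ a * p.1.2) ^ 2 * h2 + h1⟩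

private noncomputable def hm2_den (p : Susp (F2a a D)) : ℂ :=
  p.1.1.1.2.2.2 ^ a * p.1.1.1.2.2.1

private lemma hm2_den_ne (p : Susp (F2a a D)) : hm2_den a D p ≠ 0 :=
  mul_ne_zero (pow_ne_zero _ p.1.1.2.2.1) p.1.1.2.2.2.1

private noncomputable def hm2_y (p : Susp (F2a a D)) : ℂ :=
  p.1.2.2 * Complex.exp (p.1.2.1 / 2) / hm2_den a D p

private lemma hm2_y_mul (p : Susp (F2a a D)) :
    hm2_y a D p * (p.1.1.1.2.2.2 ^ a * p.1.1.1.2.2.1) =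
      p.1.2.2 * Complex.exp (p.1.2.1 / 2) :=
  div_mul_cancel₀ _ (hm2_den_ne a D p)

private noncomputable def hm2_inv (p : Susp (F2a a D)) : DCov (uFa a D) :=
  ⟨(⟨(⟨(p.1.1.1.1 + hm2_y a D p ^ 2, hm2_y a D p, p.1.1.1.2.2.1 ^ 2, p.1.1.1.2.1,
      p.1.1.1.2.2.2), by
    refine ⟨?_, p.1.1.2.2.1, p.1.1.2.2.2.2⟩
    show p.1.1.1.2.2.2 ^ 2 = (p.1.1.1.1 + hm2_y a D p ^ 2 - hm2_y a D p ^ 2) *
      (p.1.1.1.2.2.1 ^ 2 - p.1.1.1.2.1 ^ 2)
    rw [add_sub_cancel_right]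
    exact p.1.1.2.1⟩, p.1.2.1), by
    show (p.1.1.1.1 + hm2_y a D p ^ 2) * p.1.1.1.2.2.1 ^ 2 * (p.1.1.1.2.2.2 ^ a) ^ 2 =
      Complex.exp p.1.2.1
    have h1 : p.1.1.1.1 * p.1.1.1.2.2.1 ^ 2 * (p.1.1.1.2.2.2 ^ a) ^ 2 =
      (1 - p.1.2.2 ^ 2) * Complex.exp p.1.2.1 := p.2
    have h2 := hm2_y_mul a D p
    have h3 := exp_half_sq p.1.2.1
    linear_combination h1 + (hm2_y a D p * (p.1.1.1.2.2.2 ^ a * p.1.1.1.2.2.1) +
      p.1.2.2 * Complex.exp (p.1.2.1 / 2)) * h2 + p.1.2.2 ^ 2 * h3⟩,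
    p.1.1.1.2.2.1), rfl⟩

private lemma hm2_to_cont : Continuous (hm2_to a D) := by
  have h0 : Continuous fun p : DCov (uFa a D) => p.1 := continuous_subtype_val
  have h1 : Continuous fun p : DCov (uFa a D) => p.1.1.1 :=
    continuous_subtype_val.comp (continuous_fst.comp h0)
  have h2 : Continuous fun p : DCov (uFa a D) => p.1.1.1.1.1 :=
    continuous_subtype_val.comp (continuous_fst.comp h1)
  have h3 : Continuous fun p : DCov (uFa a D) => p.1.1.1.1.1.2.2.2 :=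
    continuous_snd.comp (continuous_snd.comp (continuous_snd.comp h2))
  have hx : Continuous fun p : DCov (uFa a D) => p.1.1.1.1.1.1 := continuous_fst.comp h2
  have hy : Continuous fun p : DCov (uFa a D) => p.1.1.1.1.1.2.1 :=
    continuous_fst.comp (continuous_snd.comp h2)
  have hv : Continuous fun p : DCov (uFa a D) => p.1.1.1.1.1.2.2.2.1 := continuous_fst.comp h3
  have hs : Continuous fun p : DCov (uFa a D) => p.1.1.1.1.1.2.2.2.2 := continuous_snd.comp h3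
  have ht : Continuous fun p : DCov (uFa a D) => p.1.1.1.2 := continuous_snd.comp h1
  have hr : Continuous fun p : DCov (uFa a D) => p.1.2 := continuous_snd.comp h0
  refine Continuous.subtype_mk ?_ _
  refine Continuous.prodMk (Continuous.subtype_mk ?_ _) (Continuous.prodMk ht ?_)
  · exact (hx.sub (hy.pow 2)).prodMk (hv.prodMk (hr.prodMk hs))
  · exact ((hy.mul (hs.pow a)).mul hr).mul (Complex.continuous_exp.comp (ht.neg.div_const 2))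

private lemma hm2_inv_cont : Continuous (hm2_inv a D) := by
  have h0 : Continuous fun p : Susp (F2a a D) => p.1 := continuous_subtype_val
  have h1 : Continuous fun p : Susp (F2a a D) => p.1.1.1 :=
    continuous_subtype_val.comp (continuous_fst.comp h0)
  have h2 : Continuous fun p : Susp (F2a a D) => p.1.1.1.2.2 :=
    continuous_snd.comp (continuous_snd.comp h1)
  have hx : Continuous fun p : Susp (F2a a D) => p.1.1.1.1 := continuous_fst.comp h1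
  have hv : Continuous fun p : Susp (F2a a D) => p.1.1.1.2.1 :=
    continuous_fst.comp (continuous_snd.comp h1)
  have hr : Continuous fun p : Susp (F2a a D) => p.1.1.1.2.2.1 := continuous_fst.comp h2
  have hs : Continuous fun p : Susp (F2a a D) => p.1.1.1.2.2.2 := continuous_snd.comp h2
  have ht : Continuous fun p : Susp (F2a a D) => p.1.2.1 :=
    continuous_fst.comp (continuous_snd.comp h0)
  have hq : Continuous fun p : Susp (F2a a D) => p.1.2.2 :=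
    continuous_snd.comp (continuous_snd.comp h0)
  have hy : Continuous (hm2_y a D) := by
    unfold hm2_y
    refine Continuous.div (hq.mul (Complex.continuous_exp.comp (ht.div_const 2))) ?_
      (hm2_den_ne a D)
    exact (hs.pow a).mul hr
  refine Continuous.subtype_mk ?_ _
  refine Continuous.prodMk (Continuous.subtype_mk ?_ _) hr
  refine Continuous.prodMk (Continuous.subtype_mk ?_ _) ht
  exact (hx.add (hy.pow 2)).prodMk (hy.prodMk ((hr.pow 2).prodMk (hv.prodMk hs)))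

private lemma hm2_left (p : DCov (uFa a D)) : hm2_inv a D (hm2_to a D p) = p := by
  have hs : p.1.2 ^ 2 = p.1.1.1.1.1.2.2.1 := p.2
  have hy : hm2_y a D (hm2_to a D p) = p.1.1.1.1.1.2.1 := by
    have h1 := hm2_y_mul a D (hm2_to a D p)
    have h2 := hm2_den_ne a D (hm2_to a D p)
    apply mul_right_cancel₀ h2
    refine h1.trans ?_
    show p.1.1.1.1.1.2.1 * p.1.1.1.1.1.2.2.2.2 ^ a * p.1.2 * Complex.exp (-p.1.1.1.2 / 2) *
        Complex.exp (p.1.1.1.2 / 2) = p.1.1.1.1.1.2.1 * (p.1.1.1.1.1.2.2.2.2 ^ a * p.1.2)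
    have h3 := exp_half_neg p.1.1.1.2
    linear_combination (p.1.1.1.1.1.2.1 * p.1.1.1.1.1.2.2.2.2 ^ a * p.1.2) * h3
  refine Subtype.ext (Prod.ext (Subtype.ext (Prod.ext (Subtype.ext ?_) rfl)) rfl)
  show ((p.1.1.1.1.1.1 - p.1.1.1.1.1.2.1 ^ 2) + hm2_y a D (hm2_to a D p) ^ 2,
    hm2_y a D (hm2_to a D p), p.1.2 ^ 2, p.1.1.1.1.1.2.2.2.1, p.1.1.1.1.1.2.2.2.2) =
      p.1.1.1.1.1
  rw [hy, hs, sub_add_cancel]

private lemma hm2_right (p : Susp (F2a a D)) : hm2_to a D (hm2_inv a D p) = p := by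
  refine Subtype.ext (Prod.ext (Subtype.ext ?_) (Prod.ext rfl ?_))
  · show (p.1.1.1.1 + hm2_y a D p ^ 2 - hm2_y a D p ^ 2, p.1.1.1.2.1, p.1.1.1.2.2.1,
      p.1.1.1.2.2.2) = p.1.1.1
    rw [add_sub_cancel_right]
  · show hm2_y a D p * p.1.1.1.2.2.2 ^ a * p.1.1.1.2.2.1 * Complex.exp (-p.1.2.1 / 2) = p.1.2.2
    have h2 := hm2_y_mul a D p
    have h3 := exp_half_neg p.1.2.1
    linear_combination Complex.exp (-p.1.2.1 / 2) * h2 + p.1.2.2 * h3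

theorem homeo2a : ∃ e : DCov (uFa a D) ≃ₜ Susp (F2a a D),
    (∀ p, e (DCov.lift (uFa a D) (Cov.deck (F1a a D)) (fun _ => rfl) p) =
      Susp.T (F2a a D) (e p)) ∧
    ∀ p, e (DCov.lift (uFa a D) (Cov.S (F1a a D) (sg1 D) (F1a_sg1 a D)) (fun _ => rfl) p) =
      Susp.S (F2a a D) (sg2 D) (F2a_sg2 a D) ((-1) ^ a) (sgn_sq a) (e p) := by
  refine ⟨⟨⟨hm2_to a D, hm2_inv a D, hm2_left a D, hm2_right a D⟩, hm2_to_cont a D,
    hm2_inv_cont a D⟩, ?_, ?_⟩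
  · intro p
    show hm2_to a D (DCov.lift (uFa a D) (Cov.deck (F1a a D)) (fun _ => rfl) p) =
      Susp.T (F2a a D) (hm2_to a D p)
    refine Subtype.ext (Prod.ext (Subtype.ext rfl) (Prod.ext rfl ?_))
    show p.1.1.1.1.1.2.1 * p.1.1.1.1.1.2.2.2.2 ^ a * p.1.2 *
        Complex.exp (-(p.1.1.1.2 + 2 * Real.pi * Complex.I) / 2) =
      -(p.1.1.1.1.1.2.1 * p.1.1.1.1.1.2.2.2.2 ^ a * p.1.2 * Complex.exp (-p.1.1.1.2 / 2))
    rw [exp_half_shift]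
    ring
  · intro p
    show hm2_to a D (DCov.lift (uFa a D) (Cov.S (F1a a D) (sg1 D) (F1a_sg1 a D))
      (fun _ => rfl) p) =
      Susp.S (F2a a D) (sg2 D) (F2a_sg2 a D) ((-1) ^ a) (sgn_sq a) (hm2_to a D p)
    refine Subtype.ext (Prod.ext (Subtype.ext rfl) (Prod.ext rfl ?_))
    show p.1.1.1.1.1.2.1 * (-p.1.1.1.1.1.2.2.2.2) ^ a * p.1.2 * Complex.exp (-p.1.1.1.2 / 2) =
      (-1) ^ a * (p.1.1.1.1.1.2.1 * p.1.1.1.1.1.2.2.2.2 ^ a * p.1.2 *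
        Complex.exp (-p.1.1.1.2 / 2))
    rw [neg_pow p.1.1.1.1.1.2.2.2.2 a]
    ring

/-- the flow on `Z2a D` -/
theorem F2a_circle : ∃ ρ : C(ℝ × Z2a D, Z2a D), (∀ z, ρ (0, z) = z) ∧
    (∀ z, ρ (Real.pi, z) = sg2 D z) ∧ (∀ z, ρ (2 * Real.pi, z) = z) ∧
    ∀ θ z, F2a a D (ρ (θ, z)) =
      Complex.exp (((2 * (a + 1) : ℕ) : ℂ) * θ * Complex.I) * F2a a D z := by
  have hz : Continuous fun b : ℝ × Z2a D => b.2.1 := continuous_subtype_val.comp continuous_snd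
  have h2 : Continuous fun b : ℝ × Z2a D => b.2.1.2 := continuous_snd.comp hz
  have h3 : Continuous fun b : ℝ × Z2a D => b.2.1.2.2 := continuous_snd.comp h2
  have hθ : Continuous fun b : ℝ × Z2a D => Complex.exp ((b.1 : ℂ) * Complex.I) :=
    Complex.continuous_exp.comp
      ((Complex.continuous_ofReal.comp continuous_fst).mul continuous_const)
  refine ⟨⟨fun b => ⟨(Complex.exp ((b.1 : ℂ) * Complex.I) ^ 2 * b.2.1.1,
      b.2.1.2.1, b.2.1.2.2.1,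
      Complex.exp ((b.1 : ℂ) * Complex.I) * b.2.1.2.2.2), ?_,
      mul_ne_zero (Complex.exp_ne_zero _) b.2.2.2.1, b.2.2.2.2⟩, ?_⟩, ?_, ?_, ?_, ?_⟩
  · have h : b.2.1.2.2.2 ^ 2 = b.2.1.1 * (b.2.1.2.2.1 ^ 2 - b.2.1.2.1 ^ 2) := b.2.2.1
    show (Complex.exp ((b.1 : ℂ) * Complex.I) * b.2.1.2.2.2) ^ 2 =
      Complex.exp ((b.1 : ℂ) * Complex.I) ^ 2 * b.2.1.1 * (b.2.1.2.2.1 ^ 2 - b.2.1.2.1 ^ 2)
    rw [mul_pow, h]
    ring
  · refine Continuous.subtype_mk ?_ _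
    exact ((hθ.pow 2).mul (continuous_fst.comp hz)).prodMk
      ((continuous_fst.comp h2).prodMk ((continuous_fst.comp h3).prodMk
        (hθ.mul (continuous_snd.comp h3))))
  · intro z
    apply Subtype.ext
    show (Complex.exp (((0 : ℝ) : ℂ) * Complex.I) ^ 2 * z.1.1, z.1.2.1, z.1.2.2.1,
      Complex.exp (((0 : ℝ) : ℂ) * Complex.I) * z.1.2.2.2) = z.1
    simp
  · intro z
    apply Subtype.ext
    show (Complex.exp (((Real.pi : ℝ) : ℂ) * Complex.I) ^ 2 * z.1.1, z.1.2.1, z.1.2.2.1,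
      Complex.exp (((Real.pi : ℝ) : ℂ) * Complex.I) * z.1.2.2.2) =
      (z.1.1, z.1.2.1, z.1.2.2.1, -z.1.2.2.2)
    rw [Complex.exp_pi_mul_I]
    simp
  · intro z
    apply Subtype.ext
    show (Complex.exp (((2 * Real.pi : ℝ) : ℂ) * Complex.I) ^ 2 * z.1.1, z.1.2.1, z.1.2.2.1,
      Complex.exp (((2 * Real.pi : ℝ) : ℂ) * Complex.I) * z.1.2.2.2) = z.1
    have h1 : Complex.exp (((2 * Real.pi : ℝ) : ℂ) * Complex.I) = 1 := by
      push_cast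
      exact Complex.exp_two_pi_mul_I
    rw [h1]
    simp
  · intro θ z
    show Complex.exp ((θ : ℂ) * Complex.I) ^ 2 * z.1.1 * z.1.2.2.1 ^ 2 *
      ((Complex.exp ((θ : ℂ) * Complex.I) * z.1.2.2.2) ^ a) ^ 2 =
      Complex.exp (((2 * (a + 1) : ℕ) : ℂ) * θ * Complex.I) *
        (z.1.1 * z.1.2.2.1 ^ 2 * (z.1.2.2.2 ^ a) ^ 2)
    have h1 : Complex.exp (((2 * (a + 1) : ℕ) : ℂ) * θ * Complex.I) =
        Complex.exp ((θ : ℂ) * Complex.I) ^ (2 * (a + 1)) := by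
      rw [← Complex.exp_nat_mul, mul_assoc]
    rw [h1, mul_pow]
    ring

end Pool.Agent.HZ
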