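import Pool.Agent.Lib.MP_3c7f5c_ag.Gen.Defs
import Pool.Agent.Lib.MP_3c7f5c_ag.Mon.Alg
import Pool.Agent.Lib.MP_3c7f5c_ag.Mon.Conj
import Pool.Agent.Lib.MP_3c7f5c_ag.Mon.TS3

/-!
# Common eigenvectors of two commuting maps
-/

set_option autoImplicit false

open Set

namespace Pool.Agent.HZ

section linalg
variable {V V' : Type*} [AddCommGroup V] [Module ℂ V] [AddCommGroup V'] [Module ℂ V']

theorem avg_eig (L : V →ₗ[ℂ] V) {m : ℕ} (hm : 0 < m) (h1 : ∀ b, L^[m] b = b) {mu : ℂ}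
    (hmu : mu ^ m = 1) (b : V) :
    L (∑ j ∈ Finset.range m, (mu⁻¹) ^ j • L^[j] b) =
      mu • ∑ j ∈ Finset.range m, (mu⁻¹) ^ j • L^[j] b := by
  have hmu0 : mu ≠ 0 := by
    rintro rfl
    rw [zero_pow hm.ne'] at hmu
    exact zero_ne_one hmu
  have h3 : L (∑ j ∈ Finset.range m, (mu⁻¹) ^ j • L^[j] b) =
      mu • ∑ j ∈ Finset.range m, (mu⁻¹) ^ (j + 1) • L^[j + 1] b := by
    rw [map_sum, Finset.smul_sum]
    refine Finset.sum_congr rfl fun j _ => ?_
    rw [map_smul, smul_smul, Function.iterate_succ_apply']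
    congr 1
    rw [pow_succ]
    field_simp
  have h4 := Finset.sum_range_succ' (fun j => (mu⁻¹) ^ j • L^[j] b) m
  have h5 := Finset.sum_range_succ (fun j => (mu⁻¹) ^ j • L^[j] b) m
  have h6 : (mu⁻¹) ^ m • L^[m] b = b := by
    rw [h1, inv_pow, hmu, inv_one, one_smul]
  have h7 : (mu⁻¹) ^ 0 • L^[0] b = b := by simp
  rw [h5, h6, h7] at h4
  rw [h3]
  congr 1
  exact (add_right_cancel h4).symm

theorem jconj_surj (L S : V →ₗ[ℂ] V) (L' S' : V' →ₗ[ℂ] V') (Φ : V' →ₗ[ℂ] V)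
    (hL : ∀ b, Φ (L' b) = L (Φ b)) (hS : ∀ b, Φ (S' b) = S (Φ b))
    (hc : ∀ b, L' (S' b) = S' (L' b)) (hs : Function.Surjective Φ) {m : ℕ} (hm : 0 < m)
    (h1 : ∀ b, L'^[m] b = b) (h2 : ∀ b, S' (S' b) = b) {mu eps : ℂ} (hmu : mu ^ m = 1)
    (heps : eps ^ 2 = 1) (h : ∀ b, L' b = mu • b → S' b = eps • b → b = 0)
    (a : V) (ha : L a = mu • a) (ha' : S a = eps • a) : a = 0 := by
  obtain ⟨b, rfl⟩ := hs a
  have hmu0 : mu ≠ 0 := by
    rintro rfl
    rw [zero_pow hm.ne'] at hmu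
    exact zero_ne_one hmu
  obtain ⟨b', hb'⟩ : ∃ b', b' = ∑ j ∈ Finset.range m, (mu⁻¹) ^ j • L'^[j] b := ⟨_, rfl⟩
  have h3 : L' b' = mu • b' := by
    rw [hb']
    exact avg_eig L' hm h1 hmu b
  have h4 : Φ b' = (m : ℂ) • Φ b := by
    rw [hb', map_sum]
    have h5 : ∀ j ∈ Finset.range m, Φ ((mu⁻¹) ^ j • L'^[j] b) = Φ b := by
      intro j _
      rw [map_smul, conj_iter L L' Φ hL]
      have h6 : ∀ j, L^[j] (Φ b) = mu ^ j • Φ b := by
        intro j
        induction j with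
        | zero => simp
        | succ j ih =>
          rw [Function.iterate_succ_apply', ih, map_smul, ha, smul_smul, pow_succ]
      rw [h6, smul_smul, ← mul_pow, inv_mul_cancel₀ hmu0, one_pow, one_smul]
    rw [Finset.sum_congr rfl h5, Finset.sum_const, Finset.card_range, ← Nat.cast_smul_eq_nsmul ℂ]
  have he : eps * eps = 1 := by rw [← pow_two, heps]
  have h5 : b' + eps • S' b' = 0 := by
    refine h _ ?_ ?_
    · rw [map_add, map_smul, hc, h3, map_smul, smul_add, smul_smul, smul_smul, mul_comm]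
    · rw [map_add, map_smul, h2, smul_add, smul_smul, he, one_smul, add_comm]
  have h6 := congrArg Φ h5
  rw [map_add, map_smul, hS, h4, map_smul, ha', smul_smul, smul_smul, mul_right_comm, he, one_mul,
    ← two_smul ℂ, smul_smul, map_zero] at h6
  have h7 : (2 * (m : ℂ)) ≠ 0 := mul_ne_zero two_ne_zero (by exact_mod_cast hm.ne')
  exact (smul_eq_zero.1 h6).resolve_left h7

end linalg

section
variable {X Y : Type} [TopologicalSpace X] [TopologicalSpace Y]

theorem NoEig.of_JNoEig {T : C(X, X)} {lam : ℂ} (h : JNoEig T (ContinuousMap.id X) lam 1) :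
    NoEig T lam := fun k a ha => h k a ha (by rw [Hmap_id, one_smul])

theorem JNoEig.of_homeo (e : X ≃ₜ Y) {T S : C(X, X)} {T' S' : C(Y, Y)}
    (hT : ∀ x, e (T x) = T' (e x)) (hS : ∀ x, e (S x) = S' (e x)) {lam eps : ℂ}
    (h : JNoEig T' S' lam eps) : JNoEig T S lam eps := by
  intro k a ha ha'
  have h1 : (⟨e, e.continuous⟩ : C(X, Y)).comp T = T'.comp (⟨e, e.continuous⟩ : C(X, Y)) := by
    ext x
    exact hT x
  have h2 : (⟨e, e.continuous⟩ : C(X, Y)).comp S = S'.comp (⟨e, e.continuous⟩ : C(X, Y)) := by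
    ext x
    exact hS x
  have h3 := h k (Hmap k (⟨e, e.continuous⟩ : C(X, Y)) a)
    (by rw [← Hmap_comp, ← h1, Hmap_comp, ha, map_smul])
    (by rw [← Hmap_comp, ← h2, Hmap_comp, ha', map_smul])
  exact conj_homeo_inj e k (by rw [h3, map_zero])

/-- surjective version, with lifts of finite order -/
theorem JNoEig.of_surj {T S : C(X, X)} {T' S' : C(Y, Y)} (φ : C(Y, X))
    (hT : ∀ y, φ (T' y) = T (φ y)) (hS : ∀ y, φ (S' y) = S (φ y))
    (hc : ∀ y, T' (S' y) = S' (T' y)) (hs : ∀ k, Function.Surjective (Hmap k φ)) {m : ℕ}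
    (hm : 0 < m) (h1 : PowOne T' m) (h2 : ∀ y, S' (S' y) = y) {lam eps : ℂ} (hlam : lam ^ m = 1)
    (heps : eps ^ 2 = 1) (h : JNoEig T' S' lam eps) : JNoEig T S lam eps := by
  intro k a ha ha'
  have e1 : φ.comp T' = T.comp φ := by
    ext y
    exact hT y
  have e2 : φ.comp S' = S.comp φ := by
    ext y
    exact hS y
  have e3 : T'.comp S' = S'.comp T' := by
    ext y
    exact hc y
  have e4 : S'.comp S' = ContinuousMap.id Y := by
    ext y
    exact h2 y
  refine jconj_surj (Hmap k T) (Hmap k S) (Hmap k T') (Hmap k S') (Hmap k φ) ?_ ?_ ?_ (hs k) hm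
    (h1 k) ?_ hlam heps (h k) a ha ha'
  · intro b
    rw [← Hmap_comp, e1, Hmap_comp]
  · intro b
    rw [← Hmap_comp, e2, Hmap_comp]
  · intro b
    rw [← Hmap_comp, e3, Hmap_comp]
  · intro b
    rw [← Hmap_comp, e4, Hmap_id]

end

end Pool.Agent.HZ
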