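import Pool.Agent.Lib.MP_3c7f5c_ag.Gen.NoEig
import Pool.Agent.Lib.MP_3c7f5c_ag.Mon.Local

/-!
# The local statement for `f_a`
-/

set_option autoImplicit false
set_option linter.unusedSimpArgs false

open Set

namespace Pool.Agent.HZ

variable (a : ℕ)

private lemma lsz_open (r : ℝ) {D : Set (ℂ × ℂ)} (hD : IsOpen D) : IsOpen (Vr r D) := by
  have h0 : IsOpen {z : Fin 5 → ℂ | ‖z 0‖ < r ^ 2} :=
    isOpen_lt (continuous_apply 0).norm continuous_const
  have h1 : IsOpen {z : Fin 5 → ℂ | ‖z 1‖ < r} :=
    isOpen_lt (continuous_apply 1).norm continuous_const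
  have h2 : IsOpen {z : Fin 5 → ℂ | ‖z 2‖ < r} :=
    isOpen_lt (continuous_apply 2).norm continuous_const
  have h3 : IsOpen {z : Fin 5 → ℂ | (z 3, z 4) ∈ D} :=
    hD.preimage ((continuous_apply 3).prodMk (continuous_apply 4))
  exact h0.inter (h1.inter (h2.inter h3))

theorem LSe_Z1 (ha : 0 < a) {lam : ℂ} (hl2 : lam ^ 2 ≠ 1) (hl1 : lam ^ (a + 1) ≠ 1)
    (x : Fin 5 → ℂ) (h0 : x 0 = 0) (h1 : x 1 = 0) (h2 : x 2 = 0) : LSe (fa a) x lam := by
  intro U hU hx
  obtain ⟨ε, hε, hball⟩ := Metric.isOpen_iff.1 hU x hx
  have hr : 0 < min 1 ε := lt_min one_pos hε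
  have hr1 : min 1 ε ≤ 1 := min_le_left _ _
  have hrε : min 1 ε ≤ ε := min_le_right _ _
  have hr2 : (min 1 ε) ^ 2 ≤ min 1 ε := by nlinarith
  refine ⟨Vr (min 1 ε) (Metric.ball (x 3, x 4) (min 1 ε)), lsz_open _ Metric.isOpen_ball, ?_, ?_,
    tube_noEig a _ ha _ hr hl2 hl1, 2 * (a + 1), by omega, tube_powOne_a a _ _⟩
  · refine ⟨?_, ?_, ?_, Metric.mem_ball_self hr⟩
    · rw [h0, norm_zero]; positivity
    · rw [h1, norm_zero]; exact hr
    · rw [h2, norm_zero]; exact hr
  · intro z hz
    obtain ⟨a0, a1, a2, a3⟩ := hz
    rw [Metric.mem_ball, Prod.dist_eq, max_lt_iff] at a3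
    apply hball
    rw [Metric.mem_ball, dist_pi_lt_iff hε]
    intro i
    fin_cases i
    · show dist (z 0) (x 0) < ε
      rw [h0, dist_zero_right]; linarith
    · show dist (z 1) (x 1) < ε
      rw [h1, dist_zero_right]; linarith
    · show dist (z 2) (x 2) < ε
      rw [h2, dist_zero_right]; linarith
    · show dist (z 3) (x 3) < ε
      exact lt_of_lt_of_le a3.1 hrε
    · show dist (z 4) (x 4) < ε
      exact lt_of_lt_of_le a3.2 hrε

/-- the permutation of the coordinates -/
private def lszP : Fin 5 → Fin 5 := ![3, 4, 2, 0, 1]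

private lemma lszP_inv (i : Fin 5) : lszP (lszP i) = i := by
  fin_cases i <;> rfl

private def lszS (z : Fin 5 → ℂ) : Fin 5 → ℂ := fun i => z (lszP i)

private lemma lszS_inv (z : Fin 5 → ℂ) : lszS (lszS z) = z := by
  funext i
  show z (lszP (lszP i)) = z i
  rw [lszP_inv]

private lemma lszS_cont : Continuous lszS :=
  continuous_pi fun i => continuous_apply (lszP i)

private lemma lszS_eval (z : Fin 5 → ℂ) :
    MvPolynomial.eval (lszS z) (fa a) = MvPolynomial.eval z (fa a) := by
  rw [eval_fa, eval_fa]
  show (z 3 - z 4 ^ 2) ^ a * (z 0 - z 1 ^ 2) ^ a * (z 3 * z 0 + z 2 ^ 2) = _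
  ring

private lemma lsz_tube_eq (V' : Set (Fin 5 → ℂ)) (p : (Fin 5 → ℂ) × ℂ)
    (h : p.1 ∈ lszS ⁻¹' V' ∧ MvPolynomial.eval p.1 (fa a) = Complex.exp p.2) :
    lszS p.1 ∈ V' ∧ MvPolynomial.eval (lszS p.1) (fa a) = Complex.exp p.2 :=
  ⟨h.1, by rw [lszS_eval]; exact h.2⟩

private def lszHomeo (V' : Set (Fin 5 → ℂ)) : Tube (fa a) (lszS ⁻¹' V') ≃ₜ Tube (fa a) V' where
  toFun p := ⟨(lszS p.1.1, p.1.2), lsz_tube_eq a V' p.1 p.2⟩
  invFun p := ⟨(lszS p.1.1, p.1.2), by
    refine ⟨?_, ?_⟩
    · show lszS (lszS p.1.1) ∈ V'
      rw [lszS_inv]; exact p.2.1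
    · show MvPolynomial.eval (lszS p.1.1) (fa a) = Complex.exp p.1.2
      rw [lszS_eval]; exact p.2.2⟩
  left_inv p := by
    apply Subtype.ext
    exact Prod.ext (lszS_inv _) rfl
  right_inv p := by
    apply Subtype.ext
    exact Prod.ext (lszS_inv _) rfl
  continuous_toFun := by
    refine Continuous.subtype_mk ?_ _
    exact (lszS_cont.comp (continuous_fst.comp continuous_subtype_val)).prodMk
      (continuous_snd.comp continuous_subtype_val)
  continuous_invFun := by
    refine Continuous.subtype_mk ?_ _
    exact (lszS_cont.comp (continuous_fst.comp continuous_subtype_val)).prodMk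
      (continuous_snd.comp continuous_subtype_val)

theorem LSe_Z2 (ha : 0 < a) {lam : ℂ} (hl2 : lam ^ 2 ≠ 1) (hl1 : lam ^ (a + 1) ≠ 1)
    (x : Fin 5 → ℂ) (h3 : x 3 = 0) (h4 : x 4 = 0) (h2 : x 2 = 0) : LSe (fa a) x lam := by
  intro U hU hx
  obtain ⟨V', hV', hy, hVU, hK, m, hm, hP⟩ := LSe_Z1 a ha hl2 hl1 (lszS x) h3 h4 h2 (lszS ⁻¹' U)
    (hU.preimage lszS_cont)
    (by show lszS (lszS x) ∈ U
        rw [lszS_inv]; exact hx)
  refine ⟨lszS ⁻¹' V', hV'.preimage lszS_cont, hy, ?_, ?_, m, hm, ?_⟩
  · intro z hz
    have : lszS (lszS z) ∈ U := hVU hz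
    rw [lszS_inv] at this
    exact this
  · exact NoEig.of_homeo (lszHomeo a V') (fun p => rfl) hK
  · exact PowOne.of_homeo (lszHomeo a V') (fun p => rfl) hP

theorem LSe_of_local {n m : ℕ} (f : MvPolynomial (Fin n) ℂ) (p : Fin n → ℂ) (lam : ℂ)
    (g : Fin m → MvPolynomial (Fin n) ℂ) (hg0 : ∀ i, MvPolynomial.eval p (g i) = 0)
    (hind : LinearIndependent ℂ (fun (i : Fin m) (j : Fin n) =>
      MvPolynomial.eval p (MvPolynomial.pderiv j (g i))))
    (w : Fin m → ℕ) (h : MvPolynomial (Fin n) ℂ) (hh : MvPolynomial.eval p h ≠ 0)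
    (f₀ : MvPolynomial (Fin n) ℂ) (hf : f = h * f₀) (k : ℕ) (hk : 0 < k) (hlam : lam ^ k ≠ 1)
    (hf₀ : ∀ (t : ℂ) (z z' : Fin n → ℂ),
      (∀ i, MvPolynomial.eval z' (g i) = t ^ w i * MvPolynomial.eval z (g i)) →
      MvPolynomial.eval z' f₀ = t ^ k * MvPolynomial.eval z f₀) : LSe f p lam := by
  intro U hU hpU
  set W : Set (Fin n → ℂ) :=
    {z | ‖MvPolynomial.eval z h - MvPolynomial.eval p h‖ < ‖MvPolynomial.eval p h‖} with hW
  have hWo : IsOpen W :=
    isOpen_lt ((MvPolynomial.continuous_eval h).sub continuous_const).norm continuous_const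
  have hpW : p ∈ W := by
    show ‖MvPolynomial.eval p h - MvPolynomial.eval p h‖ < ‖MvPolynomial.eval p h‖
    rw [sub_self, norm_zero]
    exact norm_pos_iff.2 hh
  obtain ⟨V, hVo, hpV, hVU, ρ, hρ0, hρ1, hρ⟩ :=
    exists_circle g p hg0 hind w (U ∩ W) (hU.inter hWo) ⟨hpU, hpW⟩
  obtain ⟨ℓ, hℓ⟩ := local_log h p hh V fun z hz => (hVU hz).2
  have hpow : PowOne (deck f V) k := by
    refine tube_powOne f f₀ h hf V ℓ hℓ ρ hρ0 hρ1 k fun θ z => ?_
    have h1 := hf₀ (Complex.exp (θ * Complex.I)) (z : Fin n → ℂ) (ρ (θ, z) : Fin n → ℂ)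
      fun i => by rw [hρ θ z i, ← Complex.exp_nat_mul, mul_assoc]
    rw [h1, ← Complex.exp_nat_mul, mul_assoc]
  exact ⟨V, hVo, hpV, fun z hz => (hVU hz).1, hpow.noEig hlam, k, hk, hpow⟩

/-! ### Points outside the two special planes -/

open MvPolynomial

private noncomputable def PX : MvPolynomial (Fin 5) ℂ := X 0 - X 1 ^ 2
private noncomputable def PU : MvPolynomial (Fin 5) ℂ := X 3 - X 4 ^ 2
private noncomputable def PG : MvPolynomial (Fin 5) ℂ := X 0 * X 3 + X 2 ^ 2

private theorem fa_eq : fa a = PX ^ a * PU ^ a * PG := rfl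

section
variable (p : Fin 5 → ℂ)

private theorem eval_PX : eval p PX = p 0 - p 1 ^ 2 := by simp [PX]
private theorem eval_PU : eval p PU = p 3 - p 4 ^ 2 := by simp [PU]
private theorem eval_PG : eval p PG = p 0 * p 3 + p 2 ^ 2 := by simp [PG]

private theorem dX0 : eval p (pderiv 0 PX) = 1 := by simp [PX, pderiv_X]
private theorem dX1 : eval p (pderiv 1 PX) = -2 * p 1 := by simp [PX, pderiv_X]
private theorem dX2 : eval p (pderiv 2 PX) = 0 := by simp [PX, pderiv_X]
private theorem dX3 : eval p (pderiv 3 PX) = 0 := by simp [PX, pderiv_X]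
private theorem dX4 : eval p (pderiv 4 PX) = 0 := by simp [PX, pderiv_X]
private theorem dU0 : eval p (pderiv 0 PU) = 0 := by simp [PU, pderiv_X]
private theorem dU1 : eval p (pderiv 1 PU) = 0 := by simp [PU, pderiv_X]
private theorem dU2 : eval p (pderiv 2 PU) = 0 := by simp [PU, pderiv_X]
private theorem dU3 : eval p (pderiv 3 PU) = 1 := by simp [PU, pderiv_X]
private theorem dU4 : eval p (pderiv 4 PU) = -2 * p 4 := by simp [PU, pderiv_X]
private theorem dG0 : eval p (pderiv 0 PG) = p 3 := by simp [PG, pderiv_X]
private theorem dG1 : eval p (pderiv 1 PG) = 0 := by simp [PG, pderiv_X]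
private theorem dG2 : eval p (pderiv 2 PG) = 2 * p 2 := by simp [PG, pderiv_X]
private theorem dG3 : eval p (pderiv 3 PG) = p 0 := by simp [PG, pderiv_X]
private theorem dG4 : eval p (pderiv 4 PG) = 0 := by simp [PG, pderiv_X]

private theorem li {m : ℕ} (g : Fin m → MvPolynomial (Fin 5) ℂ)
    (h : ∀ c : Fin m → ℂ, (∀ j, ∑ i, c i * eval p (pderiv j (g i)) = 0) → ∀ i, c i = 0) :
    LinearIndependent ℂ (fun (i : Fin m) (j : Fin 5) => eval p (pderiv j (g i))) := by
  rw [Fintype.linearIndependent_iff]
  intro c hc
  refine h c fun j => ?_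
  have := congrFun hc j
  simpa [Finset.sum_apply, smul_eq_mul] using this
end

theorem LSe_generic (ha : 0 < a) {lam : ℂ} (hl : lam ≠ 1) (hl2 : lam ^ 2 ≠ 1) (hla : lam ^ a ≠ 1)
    (x : Fin 5 → ℂ) (hx : MvPolynomial.eval x (fa a) = 0)
    (h1 : ¬ (x 0 = 0 ∧ x 1 = 0 ∧ x 2 = 0)) (h2 : ¬ (x 3 = 0 ∧ x 4 = 0 ∧ x 2 = 0)) :
    LSe (fa a) x lam := by
  have hl1 : lam ^ 1 ≠ 1 := by rwa [pow_one]
  by_cases hG : eval x PG = 0
  · by_cases hs : x 0 = 0 ∧ x 3 = 0 ∧ x 2 = 0
    · obtain ⟨h0, h3, h22⟩ := hs
      have hy : x 1 ≠ 0 := fun h => h1 ⟨h0, h, h22⟩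
      have hv : x 4 ≠ 0 := fun h => h2 ⟨h3, h, h22⟩
      refine LSe_of_local (fa a) x lam (![X 0, X 2, X 3]) ?_ (li x _ ?_) (fun _ => 1)
        (PX ^ a * PU ^ a) ?_ (X 0 * X 3 + X 2 ^ 2) ?_ 2 two_pos hl2 ?_
      · intro i
        fin_cases i <;> simp [h0, h3, h22]
      · intro c hc
        have e0 := hc 0
        have e2 := hc 2
        have e3 := hc 3
        simp [Fin.sum_univ_three, pderiv_X] at e0 e2 e3
        intro i
        fin_cases i
        · exact e0
        · exact e2
        · exact e3
      · rw [map_mul, map_pow, map_pow, eval_PX, eval_PU, h0, h3]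
        refine mul_ne_zero (pow_ne_zero _ ?_) (pow_ne_zero _ ?_)
        · simpa using hy
        · simpa using hv
      · rw [fa_eq, PG]
      · intro t z z' hz
        have e0 := hz 0
        have e1 := hz 1
        have e2 := hz 2
        simp at e0 e1 e2
        simp only [map_add, map_mul, map_pow, eval_X]
        rw [e0, e1, e2]
        ring
    · have hG0 : x 0 * x 3 + x 2 ^ 2 = 0 := by rw [← eval_PG]; exact hG
      by_cases hXa : eval x PX = 0
      · have ha0 : x 0 = x 1 ^ 2 := by
          rw [eval_PX] at hXa; exact sub_eq_zero.mp hXa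
        by_cases hb : eval x PU = 0
        · have hb0 : x 3 = x 4 ^ 2 := by
            rw [eval_PU] at hb; exact sub_eq_zero.mp hb
          refine LSe_of_local (fa a) x lam (![PG, PX, PU]) ?_ (li x _ ?_) (![1, 0, 0]) 1 ?_
            (PG * PX ^ a * PU ^ a) ?_ 1 one_pos hl1 ?_
          · intro i
            fin_cases i
            · exact hG
            · exact hXa
            · exact hb
          · intro c hc
            have e0 := hc 0
            have e1 := hc 1
            have e2 := hc 2
            have e3 := hc 3
            have e4 := hc 4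
            simp only [Fin.sum_univ_three, Matrix.cons_val_zero, Matrix.cons_val_one, Matrix.cons_val,
              dX0, dX1, dX2, dX3, dX4, dU0, dU1, dU2, dU3, dU4, dG0, dG1, dG2, dG3, dG4] at e0 e1 e2 e3 e4
            have hc0 : c 0 = 0 := by
              by_contra hne
              have w0 : x 2 = 0 := by
                have : c 0 * x 2 = 0 := by linear_combination e2 / 2
                exact (mul_eq_zero.mp this).resolve_left hne
              have hyu : x 1 * x 3 = 0 := by
                have : c 0 * (x 1 * x 3) = 0 := by linear_combination x 1 * e0 + e1 / 2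
                exact (mul_eq_zero.mp this).resolve_left hne
              have hvx : x 4 * x 0 = 0 := by
                have : c 0 * (x 4 * x 0) = 0 := by linear_combination x 4 * e3 + e4 / 2
                exact (mul_eq_zero.mp this).resolve_left hne
              rcases mul_eq_zero.mp hyu with hy | hu
              · exact h1 ⟨by rw [ha0, hy]; ring, hy, w0⟩
              · have hv : x 4 = 0 := by
                  rw [hu] at hb0
                  exact pow_eq_zero_iff (two_ne_zero) |>.mp hb0.symm
                exact h2 ⟨hu, hv, w0⟩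
            rw [hc0] at e0 e3
            intro i
            fin_cases i
            · exact hc0
            · change c 1 = 0
              linear_combination e0
            · change c 2 = 0
              linear_combination e3
          · simp
          · rw [fa_eq]; ring
          · intro t z z' hz
            have e0 := hz 0
            have e1 := hz 1
            have e2 := hz 2
            simp only [Matrix.cons_val_zero, Matrix.cons_val_one, Matrix.cons_val, pow_zero, pow_one,
              one_mul] at e0 e1 e2
            simp only [map_mul, map_pow, e0, e1, e2]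
            ring
        · refine LSe_of_local (fa a) x lam (![PG, PX]) ?_ (li x _ ?_) (![1, 0]) (PU ^ a) ?_
            (PG * PX ^ a) ?_ 1 one_pos hl1 ?_
          · intro i
            fin_cases i
            · exact hG
            · exact hXa
          · intro c hc
            have e0 := hc 0
            have e1 := hc 1
            have e2 := hc 2
            have e3 := hc 3
            simp only [Fin.sum_univ_two, Matrix.cons_val_zero, Matrix.cons_val_one, Matrix.cons_val,
              dX0, dX1, dX2, dX3, dX4, dU0, dU1, dU2, dU3, dU4, dG0, dG1, dG2, dG3, dG4] at e0 e1 e2 e3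
            have hc0 : c 0 = 0 := by
              by_contra hne
              have w0 : x 2 = 0 := by
                have : c 0 * x 2 = 0 := by linear_combination e2 / 2
                exact (mul_eq_zero.mp this).resolve_left hne
              have hx0 : x 0 = 0 := by
                have : c 0 * x 0 = 0 := by linear_combination e3
                exact (mul_eq_zero.mp this).resolve_left hne
              have hy : x 1 = 0 := by
                rw [hx0] at ha0
                exact pow_eq_zero_iff (two_ne_zero) |>.mp ha0.symm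
              exact h1 ⟨hx0, hy, w0⟩
            rw [hc0] at e0
            intro i
            fin_cases i
            · exact hc0
            · change c 1 = 0
              linear_combination e0
          · rw [map_pow]; exact pow_ne_zero _ hb
          · rw [fa_eq]; ring
          · intro t z z' hz
            have e0 := hz 0
            have e1 := hz 1
            simp only [Matrix.cons_val_zero, Matrix.cons_val_one, Matrix.cons_val, pow_zero, pow_one,
              one_mul] at e0 e1
            simp only [map_mul, map_pow, e0, e1]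
            ring
      · by_cases hb : eval x PU = 0
        · have hb0 : x 3 = x 4 ^ 2 := by
            rw [eval_PU] at hb; exact sub_eq_zero.mp hb
          refine LSe_of_local (fa a) x lam (![PG, PU]) ?_ (li x _ ?_) (![1, 0]) (PX ^ a) ?_
            (PG * PU ^ a) ?_ 1 one_pos hl1 ?_
          · intro i
            fin_cases i
            · exact hG
            · exact hb
          · intro c hc
            have e0 := hc 0
            have e2 := hc 2
            have e3 := hc 3
            have e4 := hc 4
            simp only [Fin.sum_univ_two, Matrix.cons_val_zero, Matrix.cons_val_one, Matrix.cons_val,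
              dX0, dX1, dX2, dX3, dX4, dU0, dU1, dU2, dU3, dU4, dG0, dG1, dG2, dG3, dG4] at e0 e2 e3 e4
            have hc0 : c 0 = 0 := by
              by_contra hne
              have w0 : x 2 = 0 := by
                have : c 0 * x 2 = 0 := by linear_combination e2 / 2
                exact (mul_eq_zero.mp this).resolve_left hne
              have hx3 : x 3 = 0 := by
                have : c 0 * x 3 = 0 := by linear_combination e0
                exact (mul_eq_zero.mp this).resolve_left hne
              have hv : x 4 = 0 := by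
                rw [hx3] at hb0
                exact pow_eq_zero_iff (two_ne_zero) |>.mp hb0.symm
              exact h2 ⟨hx3, hv, w0⟩
            rw [hc0] at e3
            intro i
            fin_cases i
            · exact hc0
            · change c 1 = 0
              linear_combination e3
          · rw [map_pow]; exact pow_ne_zero _ hXa
          · rw [fa_eq]; ring
          · intro t z z' hz
            have e0 := hz 0
            have e1 := hz 1
            simp only [Matrix.cons_val_zero, Matrix.cons_val_one, Matrix.cons_val, pow_zero, pow_one,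
              one_mul] at e0 e1
            simp only [map_mul, map_pow, e0, e1]
            ring
        · refine LSe_of_local (fa a) x lam (fun _ : Fin 1 => PG) (fun _ => hG) (li x _ ?_)
            (fun _ => 1) (PX ^ a * PU ^ a) ?_ PG ?_ 1 one_pos hl1 ?_
          · intro c hc i
            have hi : i = 0 := Subsingleton.elim _ _
            subst hi
            have e0 := hc 0
            have e2 := hc 2
            have e3 := hc 3
            simp only [Fin.sum_univ_one, dG0, dG2, dG3] at e0 e2 e3
            by_contra hne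
            refine hs ⟨(mul_eq_zero.mp e3).resolve_left hne, (mul_eq_zero.mp e0).resolve_left hne, ?_⟩
            have : c 0 * x 2 = 0 := by linear_combination e2 / 2
            exact (mul_eq_zero.mp this).resolve_left hne
          · rw [map_mul, map_pow, map_pow]
            exact mul_ne_zero (pow_ne_zero _ hXa) (pow_ne_zero _ hb)
          · rw [fa_eq]
          · intro t z z' hz
            simpa using hz 0
  · by_cases hXa : eval x PX = 0
    · by_cases hb : eval x PU = 0
      · refine LSe_of_local (fa a) x lam (![PX, PU]) ?_ (li x _ ?_) (![1, 0]) PG hG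
          (PX ^ a * PU ^ a) ?_ a ha hla ?_
        · intro i
          fin_cases i
          · exact hXa
          · exact hb
        · intro c hc
          have e0 := hc 0
          have e3 := hc 3
          simp only [Fin.sum_univ_two, Matrix.cons_val_zero, Matrix.cons_val_one, Matrix.cons_val,
              dX0, dX1, dX2, dX3, dX4, dU0, dU1, dU2, dU3, dU4] at e0 e3
          intro i
          fin_cases i
          · change c 0 = 0
            linear_combination e0
          · change c 1 = 0
            linear_combination e3
        · rw [fa_eq]; ring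
        · intro t z z' hz
          have e0 := hz 0
          have e1 := hz 1
          simp only [Matrix.cons_val_zero, Matrix.cons_val_one, Matrix.cons_val, pow_zero, pow_one,
              one_mul] at e0 e1
          simp only [map_mul, map_pow, e0, e1]
          ring
      · refine LSe_of_local (fa a) x lam (fun _ : Fin 1 => PX) (fun _ => hXa) (li x _ ?_)
            (fun _ => 1) (PU ^ a * PG) ?_ (PX ^ a) ?_ a ha hla ?_
        · intro c hc i
          have hi : i = 0 := Subsingleton.elim _ _
          subst hi
          have e0 := hc 0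
          simp only [Fin.sum_univ_one, dX0] at e0
          linear_combination e0
        · rw [map_mul, map_pow]
          exact mul_ne_zero (pow_ne_zero _ hb) hG
        · rw [fa_eq]; ring
        · intro t z z' hz
          have e0 := hz 0
          rw [map_pow, map_pow, e0]
          ring
    · have hb : eval x PU = 0 := by
        rw [fa_eq, map_mul, map_mul, map_pow, map_pow] at hx
        by_contra hb
        exact mul_ne_zero (mul_ne_zero (pow_ne_zero _ hXa) (pow_ne_zero _ hb)) hG hx
      refine LSe_of_local (fa a) x lam (fun _ : Fin 1 => PU) (fun _ => hb) (li x _ ?_) (fun _ => 1)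
            (PX ^ a * PG) ?_ (PU ^ a) ?_ a ha hla ?_
      · intro c hc i
        have hi : i = 0 := Subsingleton.elim _ _
        subst hi
        have e3 := hc 3
        simp only [Fin.sum_univ_one, dU3] at e3
        linear_combination e3
      · rw [map_mul, map_pow]
        exact mul_ne_zero (pow_ne_zero _ hXa) hG
      · rw [fa_eq]; ring
      · intro t z z' hz
        have e0 := hz 0
        rw [map_pow, map_pow, e0]
        ring

end Pool.Agent.HZ
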