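import Pool.Agent.Lib.MP_3c7f5c_ag.Gen.Homeo2
import Pool.Agent.Lib.MP_3c7f5c_ag.Hom.Transfer
import Pool.Agent.Lib.MP_3c7f5c_ag.Mon.Circ

/-!
# Eigenvalues of the monodromy on the tube of `f_a`
-/

set_option autoImplicit false

open Set

namespace Pool.Agent.HZ

variable (a : ℕ) (D : Set (ℂ × ℂ))

theorem F2a_jnoEig {lam : ℂ} (h : lam ^ (a + 1) ≠ 1) :
    JNoEig (Cov.deck (F2a a D)) (Cov.S (F2a a D) (sg2 D) (F2a_sg2 a D)) lam 1 := by
  intro k b hb hb'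
  obtain ⟨ρ, h0, h1, -, h3⟩ := F2a_circle a D
  have h4 := cov_half (F2a a D) (sg2 D) (F2a_sg2 a D) ρ h0 h1 (a + 1) h3 k b
  rw [alg_iter_smul (Hmap k (Cov.deck (F2a a D))) lam b hb (a + 1), map_smul, hb', one_smul] at h4
  have h5 : (lam ^ (a + 1) - 1) • b = 0 := by
    rw [sub_smul, one_smul, h4, sub_self]
  exact (smul_eq_zero.1 h5).resolve_left (sub_ne_zero.2 h)

theorem tube_noEig_inf (ha : 0 < a) {lam : ℂ} (h2 : lam ^ 2 ≠ 1) (h1 : lam ^ (a + 1) ≠ 1)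
    (hm : lam ^ (2 * (a + 1)) = 1) : NoEig (deck (fa a) (Vinf D)) lam := by
  have hA : JNoEig (Susp.T (F2a a D))
      (Susp.S (F2a a D) (sg2 D) (F2a_sg2 a D) ((-1) ^ a) (sgn_sq a)) (-lam) ((-1) ^ a) := by
    refine susp_jnoEig _ _ _ _ _ (-lam) _ (by rw [neg_sq]; exact h2) ?_
    rw [neg_neg, ← pow_two, sgn_sq]
    exact F2a_jnoEig a D h1
  obtain ⟨e2, he2, he2'⟩ := homeo2a a D
  have hB := JNoEig.of_homeo e2 he2 he2' hA
  have hP2 := PowOne.of_homeo e2 he2 (m := 2 * (a + 1)) (by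
    obtain ⟨ρ, h0, -, h1, h3⟩ := F2a_circle a D
    exact susp_powOne (F2a a D) ρ h0 h1 _ (even_two_mul _) h3)
  have hC : JNoEig (Cov.deck (F1a a D)) (Cov.S (F1a a D) (sg1 D) (F1a_sg1 a D)) (-lam)
      ((-1) ^ a) := by
    refine JNoEig.of_surj
      (T' := DCov.lift (uFa a D) (Cov.deck (F1a a D)) (fun _ => rfl))
      (S' := DCov.lift (uFa a D) (Cov.S (F1a a D) (sg1 D) (F1a_sg1 a D)) (fun _ => rfl))
      (DCov.proj (uFa a D)) (fun _ => rfl) (fun _ => rfl) (fun _ => rfl)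
      (fun k => dcov_surjective (uFa a D) (uFa_ne_zero a D) k) (m := 2 * (a + 1)) (by omega)
      hP2 ?_ ?_ (sgn_sq a) hB
    · intro p
      apply Subtype.ext
      refine Prod.ext (Subtype.ext (Prod.ext (Subtype.ext ?_) rfl)) rfl
      show (p.1.1.1.1.1.1, p.1.1.1.1.1.2.1, p.1.1.1.1.1.2.2.1, p.1.1.1.1.1.2.2.2.1,
        - -p.1.1.1.1.1.2.2.2.2) = p.1.1.1.1.1
      rw [neg_neg]
    · rw [pow_mul, neg_sq, ← pow_mul, hm]
  have hE : JNoEig (Susp.T (F1a a D))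
      (Susp.S (F1a a D) (sg1 D) (F1a_sg1 a D) ((-1) ^ a) (sgn_sq a)) lam 1 := by
    refine susp_jnoEig _ _ _ _ _ lam _ h2 ?_
    rw [mul_one]
    exact hC
  obtain ⟨e1, he1, he1'⟩ := homeo1a a ha D
  have hF := JNoEig.of_homeo e1 he1 he1' hE
  have hP1 := PowOne.of_homeo e1 he1 (m := 2 * (a + 1)) (by
    obtain ⟨ρ, h0, h1, h3⟩ := F1a_circle a D
    exact susp_powOne (F1a a D) ρ h0 h1 _ (even_two_mul _) h3)
  refine NoEig.of_JNoEig (JNoEig.of_surj
    (T' := DCov.lift (ABfun a (Vinf D)) (deck (fa a) (Vinf D)) (fun _ => rfl))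
    (S' := DCov.neg (ABfun a (Vinf D))) (DCov.proj (ABfun a (Vinf D))) (fun _ => rfl)
    (fun _ => rfl) (fun _ => rfl)
    (fun k => dcov_surjective _ (ABfun_ne_zero a ha (Vinf D)) k) (m := 2 * (a + 1)) (by omega)
    hP1 ?_ hm (one_pow 2) hF)
  intro p
  apply Subtype.ext
  refine Prod.ext rfl ?_
  show - -p.1.2 = p.1.2
  rw [neg_neg]

/-! ### Small polydiscs -/

/-- the scaling `(t² x, t y, t w, u, v)` -/
noncomputable def exd (t : ℂ) (z : Fin 5 → ℂ) : Fin 5 → ℂ :=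
  ![t ^ 2 * z 0, t * z 1, t * z 2, z 3, z 4]

private lemma exd_fa (t : ℂ) (z : Fin 5 → ℂ) :
    MvPolynomial.eval (exd t z) (fa a) = t ^ (2 * (a + 1)) * MvPolynomial.eval z (fa a) := by
  rw [eval_fa, eval_fa]
  show (t ^ 2 * z 0 - (t * z 1) ^ 2) ^ a * (z 3 - z 4 ^ 2) ^ a *
    (t ^ 2 * z 0 * z 3 + (t * z 2) ^ 2) = _
  have h1 : (t ^ 2 * z 0 - (t * z 1) ^ 2) = t ^ 2 * (z 0 - z 1 ^ 2) := by ring
  rw [h1, mul_pow]
  ring

private lemma exd_cont {A : Type} [TopologicalSpace A] (t : A → ℂ) (z : A → Fin 5 → ℂ)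
    (ht : Continuous t) (hz : Continuous z) : Continuous fun a => exd (t a) (z a) := by
  have hzi : ∀ i, Continuous fun a => z a i := fun i => (continuous_apply i).comp hz
  refine continuous_pi fun i => ?_
  fin_cases i
  · exact (ht.pow 2).mul (hzi 0)
  · exact ht.mul (hzi 1)
  · exact ht.mul (hzi 2)
  · exact hzi 3
  · exact hzi 4

/-- `log t₀` -/
private noncomputable def exl (r : ℝ) (z : Fin 5 → ℂ) : ℝ :=
  Real.log (r / (1 + r + ‖z 0‖ + ‖z 1‖ + ‖z 2‖))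

private lemma exl_pos (r : ℝ) (hr : 0 < r) (z : Fin 5 → ℂ) :
    0 < r / (1 + r + ‖z 0‖ + ‖z 1‖ + ‖z 2‖) := by positivity

private lemma exl_neg (r : ℝ) (hr : 0 < r) (z : Fin 5 → ℂ) : exl r z ≤ 0 := by
  refine Real.log_nonpos (exl_pos r hr z).le ?_
  rw [div_le_one (by positivity)]
  have h0 := norm_nonneg (z 0)
  have h1 := norm_nonneg (z 1)
  have h2 := norm_nonneg (z 2)
  linarith

private lemma exl_cont (r : ℝ) (hr : 0 < r) : Continuous (exl r) := by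
  refine Continuous.log ?_ (fun z => (exl_pos r hr z).ne')
  refine Continuous.div continuous_const ?_ (fun z => by positivity)
  exact (((continuous_const).add (continuous_apply 0).norm).add (continuous_apply 1).norm).add
    (continuous_apply 2).norm

private lemma exd_mem (r : ℝ) (hr : 0 < r) (z : Fin 5 → ℂ) (hz : z ∈ Vinf D) :
    exd ((Real.exp (exl r z) : ℝ) : ℂ) z ∈ Vr r D := by
  have h1 : Real.exp (exl r z) = r / (1 + r + ‖z 0‖ + ‖z 1‖ + ‖z 2‖) :=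
    Real.exp_log (exl_pos r hr z)
  rw [h1]
  have n0 := norm_nonneg (z 0)
  have n1 := norm_nonneg (z 1)
  have n2 := norm_nonneg (z 2)
  obtain ⟨S, hS⟩ : ∃ S : ℝ, S = 1 + r + ‖z 0‖ + ‖z 1‖ + ‖z 2‖ := ⟨_, rfl⟩
  rw [← hS]
  have hS0 : 0 < S := by rw [hS]; positivity
  have hn : ‖((r / S : ℝ) : ℂ)‖ = r / S := by
    rw [Complex.norm_real, Real.norm_of_nonneg (by positivity)]
  refine ⟨?_, ?_, ?_, hz⟩
  · show ‖((r / S : ℝ) : ℂ) ^ 2 * z 0‖ < r ^ 2
    rw [norm_mul, norm_pow, hn, div_pow, div_mul_eq_mul_div, div_lt_iff₀ (by positivity)]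
    have h2 : ‖z 0‖ < S ^ 2 := by nlinarith
    exact mul_lt_mul_of_pos_left h2 (by positivity)
  · show ‖((r / S : ℝ) : ℂ) * z 1‖ < r
    rw [norm_mul, hn, div_mul_eq_mul_div, div_lt_iff₀ hS0]
    exact mul_lt_mul_of_pos_left (by linarith) hr
  · show ‖((r / S : ℝ) : ℂ) * z 2‖ < r
    rw [norm_mul, hn, div_mul_eq_mul_div, div_lt_iff₀ hS0]
    exact mul_lt_mul_of_pos_left (by linarith) hr

private lemma exd_mem_r (r : ℝ) (z : Fin 5 → ℂ) (hz : z ∈ Vr r D)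
    (t : ℝ) (ht0 : 0 ≤ t) (ht1 : t ≤ 1) : exd ((t : ℝ) : ℂ) z ∈ Vr r D := by
  obtain ⟨h0, h1, h2, h3⟩ := hz
  have hn : ‖((t : ℝ) : ℂ)‖ = t := by
    rw [Complex.norm_real, Real.norm_of_nonneg ht0]
  refine ⟨?_, ?_, ?_, h3⟩
  · show ‖((t : ℝ) : ℂ) ^ 2 * z 0‖ < r ^ 2
    rw [norm_mul, norm_pow, hn]
    have h4 : t ^ 2 ≤ 1 := pow_le_one₀ ht0 ht1
    exact (mul_le_of_le_one_left (norm_nonneg _) h4).trans_lt h0
  · show ‖((t : ℝ) : ℂ) * z 1‖ < r
    rw [norm_mul, hn]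
    exact (mul_le_of_le_one_left (norm_nonneg _) ht1).trans_lt h1
  · show ‖((t : ℝ) : ℂ) * z 2‖ < r
    rw [norm_mul, hn]
    exact (mul_le_of_le_one_left (norm_nonneg _) ht1).trans_lt h2

private lemma exd_mem_inf (z : Fin 5 → ℂ) (hz : z ∈ Vinf D) (t : ℂ) :
    exd t z ∈ Vinf D := hz

/-- the family `(δ(t₀^s, z), τ + (2a + 2) s log t₀)` -/
private noncomputable def exg (r : ℝ) (s : ℝ) (p : (Fin 5 → ℂ) × ℂ) : (Fin 5 → ℂ) × ℂ :=
  (exd ((Real.exp (s * exl r p.1) : ℝ) : ℂ) p.1,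
    p.2 + ((2 * (a + 1) : ℕ) : ℂ) * ((s * exl r p.1 : ℝ) : ℂ))

private lemma exg_eq (r s : ℝ) (p : (Fin 5 → ℂ) × ℂ)
    (hp : MvPolynomial.eval p.1 (fa a) = Complex.exp p.2) :
    MvPolynomial.eval (exg a r s p).1 (fa a) = Complex.exp (exg a r s p).2 := by
  show MvPolynomial.eval (exd ((Real.exp (s * exl r p.1) : ℝ) : ℂ) p.1) (fa a) =
    Complex.exp (p.2 + ((2 * (a + 1) : ℕ) : ℂ) * ((s * exl r p.1 : ℝ) : ℂ))
  rw [exd_fa, hp, Complex.exp_add, Complex.ofReal_exp, Complex.exp_nat_mul]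
  ring

private lemma exg_cont (r : ℝ) (hr : 0 < r) {A : Type} [TopologicalSpace A] (s : A → ℝ)
    (p : A → (Fin 5 → ℂ) × ℂ) (hs : Continuous s) (hp : Continuous p) :
    Continuous fun b => exg a r (s b) (p b) := by
  have h1 : Continuous fun a => (p a).1 := continuous_fst.comp hp
  have h2 : Continuous fun a => s a * exl r (p a).1 := hs.mul ((exl_cont r hr).comp h1)
  exact (exd_cont _ _ (Complex.continuous_ofReal.comp (Real.continuous_exp.comp h2)) h1).prodMk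
    ((continuous_snd.comp hp).add (continuous_const.mul (Complex.continuous_ofReal.comp h2)))

private lemma exd_one (z : Fin 5 → ℂ) : exd 1 z = z := by
  funext i
  fin_cases i <;> simp [exd]

private lemma exg_zero (r : ℝ) (p : (Fin 5 → ℂ) × ℂ) : exg a r 0 p = p := by
  unfold exg
  rw [zero_mul, Real.exp_zero, Complex.ofReal_one, exd_one]
  simp

theorem Vr_subset_Vinf' (r : ℝ) : Vr r D ⊆ Vinf D := fun _ hz => hz.2.2.2

theorem tube_expand_a (r : ℝ) (hr : 0 < r) :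
    ∃ e : ContinuousMap.HomotopyEquiv (Tube (fa a) (Vr r D)) (Tube (fa a) (Vinf D)),
      e.toFun = tubeIncl (fa a) (Vr_subset_Vinf' D r) := by
  have hval1 : Continuous fun p : Tube (fa a) (Vr r D) => p.1 := continuous_subtype_val
  have hval2 : Continuous fun p : Tube (fa a) (Vinf D) => p.1 := continuous_subtype_val
  refine ⟨⟨tubeIncl (fa a) (Vr_subset_Vinf' D r),
    ⟨fun p => ⟨exg a r 1 p.1, by
      show exd ((Real.exp (1 * exl r p.1.1) : ℝ) : ℂ) p.1.1 ∈ Vr r D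
      rw [one_mul]
      exact exd_mem D r hr p.1.1 p.2.1, exg_eq a r 1 p.1 p.2.2⟩,
      Continuous.subtype_mk (exg_cont a r hr _ _ continuous_const hval2) _⟩, ?_, ?_⟩, rfl⟩
  · refine ContinuousMap.Homotopic.symm ⟨⟨⟨fun b => ⟨exg a r b.1 b.2.1,
      exd_mem_r D r b.2.1.1 b.2.2.1 _ (Real.exp_pos _).le (Real.exp_le_one_iff.2
        (mul_nonpos_of_nonneg_of_nonpos b.1.2.1 (exl_neg r hr _))), exg_eq a r b.1 b.2.1 b.2.2.2⟩,
      Continuous.subtype_mk (exg_cont a r hr _ _ (continuous_subtype_val.comp continuous_fst)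
        (hval1.comp continuous_snd)) _⟩, fun p => ?_, fun p => ?_⟩⟩
    · exact Subtype.ext (exg_zero a r p.1)
    · exact Subtype.ext rfl
  · refine ContinuousMap.Homotopic.symm ⟨⟨⟨fun b => ⟨exg a r b.1 b.2.1,
      exd_mem_inf D b.2.1.1 b.2.2.1 _, exg_eq a r b.1 b.2.1 b.2.2.2⟩,
      Continuous.subtype_mk (exg_cont a r hr _ _ (continuous_subtype_val.comp continuous_fst)
        (hval2.comp continuous_snd)) _⟩, fun p => ?_, fun p => ?_⟩⟩
    · exact Subtype.ext (exg_zero a r p.1)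
    · exact Subtype.ext rfl

theorem tube_powOne_a (r : ℝ) : PowOne (deck (fa a) (Vr r D)) (2 * (a + 1)) := by
  have hz : Continuous fun b : ℝ × Vr r D => (b.2 : Fin 5 → ℂ) :=
    continuous_subtype_val.comp continuous_snd
  have hθ : Continuous fun b : ℝ × Vr r D => Complex.exp ((b.1 : ℂ) * Complex.I) :=
    Complex.continuous_exp.comp
      ((Complex.continuous_ofReal.comp continuous_fst).mul continuous_const)
  have hn : ∀ θ : ℝ, ‖Complex.exp ((θ : ℂ) * Complex.I)‖ = 1 := Complex.norm_exp_ofReal_mul_I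
  have hmem : ∀ b : ℝ × Vr r D, exd (Complex.exp ((b.1 : ℂ) * Complex.I)) b.2 ∈ Vr r D := by
    intro b
    obtain ⟨h0, h1, h2, h3⟩ := b.2.2
    refine ⟨?_, ?_, ?_, h3⟩
    · show ‖Complex.exp ((b.1 : ℂ) * Complex.I) ^ 2 * b.2.1 0‖ < r ^ 2
      rw [norm_mul, norm_pow, hn, one_pow, one_mul]
      exact h0
    · show ‖Complex.exp ((b.1 : ℂ) * Complex.I) * b.2.1 1‖ < r
      rw [norm_mul, hn, one_mul]
      exact h1
    · show ‖Complex.exp ((b.1 : ℂ) * Complex.I) * b.2.1 2‖ < r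
      rw [norm_mul, hn, one_mul]
      exact h2
  refine tube_powOne (fa a) (fa a) 1 (one_mul _).symm (Vr r D) 0 (fun z => ?_)
    ⟨fun b => ⟨exd (Complex.exp ((b.1 : ℂ) * Complex.I)) b.2, hmem b⟩,
      Continuous.subtype_mk (exd_cont _ _ hθ hz) hmem⟩ (fun z => ?_) (fun z => ?_) _
    (fun θ z => ?_)
  · simp
  · refine Subtype.ext ?_
    show exd (Complex.exp (((0 : ℝ) : ℂ) * Complex.I)) z.1 = z.1
    rw [Complex.ofReal_zero, zero_mul, Complex.exp_zero, exd_one]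
  · refine Subtype.ext ?_
    show exd (Complex.exp (((2 * Real.pi : ℝ) : ℂ) * Complex.I)) z.1 = z.1
    have h1 : Complex.exp (((2 * Real.pi : ℝ) : ℂ) * Complex.I) = 1 := by
      push_cast
      exact Complex.exp_two_pi_mul_I
    rw [h1, exd_one]
  · show MvPolynomial.eval (exd (Complex.exp ((θ : ℂ) * Complex.I)) z.1) (fa a) =
      Complex.exp (((2 * (a + 1) : ℕ) : ℂ) * θ * Complex.I) * MvPolynomial.eval z.1 (fa a)
    have h1 : Complex.exp (((2 * (a + 1) : ℕ) : ℂ) * θ * Complex.I) =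
        Complex.exp ((θ : ℂ) * Complex.I) ^ (2 * (a + 1)) := by
      rw [← Complex.exp_nat_mul, mul_assoc]
    rw [exd_fa, h1]

theorem tube_noEig (ha : 0 < a) (r : ℝ) (hr : 0 < r) {lam : ℂ} (h2 : lam ^ 2 ≠ 1)
    (h1 : lam ^ (a + 1) ≠ 1) : NoEig (deck (fa a) (Vr r D)) lam := by
  by_cases hm : lam ^ (2 * (a + 1)) = 1
  · refine NoEig.transport (tubeIncl (fa a) (Vr_subset_Vinf' D r)) ?_ (fun k => ?_)
      (tube_noEig_inf a D ha h2 h1 hm)
    · have h5 : (tubeIncl (fa a) (Vr_subset_Vinf' D r)).comp (deck (fa a) (Vr r D)) =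
          (deck (fa a) (Vinf D)).comp (tubeIncl (fa a) (Vr_subset_Vinf' D r)) := rfl
      rw [h5]
    · obtain ⟨e', he'⟩ := tube_expand_a a D r hr
      rw [← he']
      exact (Hequiv k e').injective
  · exact (tube_powOne_a a D r).noEig hm

end Pool.Agent.HZ
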