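import Pool.Agent.Lib.MP_3c7f5c_ag.Gen.Defs
import Pool.Agent.Lib.MP_3c7f5c_ag.Res.Main
import Pool.Agent.Lib.MP_3c7f5c_ag.Eul.StrA
import Pool.Agent.Lib.MP_3c7f5c_ag.Eul.StrB

/-!
# The log resolution of `f_a` and its twisted topological zeta function
-/

set_option autoImplicit false

open Set

namespace Pool.Agent.HZ

/-- the multiplicities `N_i` for `f_n` -/
def NA (n : ℕ) : Fin 9 → ℕ := ![2 * (n + 1), n + 1, n + 1, 2 * (n + 1), 2 * (n + 1), 2, n, n, 1]

theorem div_fa_HF (n : ℕ) (k : Fin 25) :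
    MvPolynomial.bind₁ (HF.muPoly k) (fa n) = ∏ s, eqnD k s ^ NA n s := by
  generalize ha : HF.xiPoly k = a
  have hmu : ∀ i, HF.muPoly k i = ∏ ρ, a ρ ^ rhoD ρ i := fun i => by rw [← ha]; rfl
  have m0 : HF.muPoly k 0 = a 0 * a 5 * a 6 * a 8 ^ 2 * a 10 := by
    rw [hmu]
    simp only [Fin.prod_univ_succ, Fin.prod_univ_zero, rhoD]
    simp
    ring
  have m1 : HF.muPoly k 1 = a 1 * a 5 * a 6 * a 8 := by
    rw [hmu]
    simp only [Fin.prod_univ_succ, Fin.prod_univ_zero, rhoD]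
    simp
    ring
  have m2 : HF.muPoly k 2 = a 2 * a 5 * a 6 * a 7 * a 8 * a 9 * a 10 := by
    rw [hmu]
    simp only [Fin.prod_univ_succ, Fin.prod_univ_zero, rhoD]
    simp
    ring
  have m3 : HF.muPoly k 3 = a 3 * a 5 * a 7 * a 9 ^ 2 * a 10 := by
    rw [hmu]
    simp only [Fin.prod_univ_succ, Fin.prod_univ_zero, rhoD]
    simp
    ring
  have m4 : HF.muPoly k 4 = a 4 * a 5 * a 7 * a 9 := by
    rw [hmu]
    simp only [Fin.prod_univ_succ, Fin.prod_univ_zero, rhoD]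
    simp
    ring
  have hL : MvPolynomial.bind₁ (HF.muPoly k) (fa n) =
      (HF.muPoly k 0 - HF.muPoly k 1 ^ 2) ^ n * (HF.muPoly k 3 - HF.muPoly k 4 ^ 2) ^ n *
        (HF.muPoly k 0 * HF.muPoly k 3 + HF.muPoly k 2 ^ 2) := by
    simp [fa]
  have hR : ∏ s, eqnD k s ^ NA n s = a 5 ^ (2 * (n + 1)) * a 6 ^ (n + 1) * a 7 ^ (n + 1) *
      a 8 ^ (2 * (n + 1)) * a 9 ^ (2 * (n + 1)) * a 10 ^ 2 *
      (a 0 * a 10 - a 1 ^ 2 * a 5 * a 6) ^ n * (a 3 * a 10 - a 4 ^ 2 * a 5 * a 7) ^ n *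
      (a 0 * a 3 + a 2 ^ 2 * a 6 * a 7) := by
    simp only [Fin.prod_univ_succ, Fin.prod_univ_zero, eqnD, Pcox, NA, ha]
    simp
    ring
  rw [hL, hR, m0, m1, m2, m3, m4]
  have e1 : a 0 * a 5 * a 6 * a 8 ^ 2 * a 10 - (a 1 * a 5 * a 6 * a 8) ^ 2 =
      a 5 * a 6 * a 8 ^ 2 * (a 0 * a 10 - a 1 ^ 2 * a 5 * a 6) := by ring
  have e2 : a 3 * a 5 * a 7 * a 9 ^ 2 * a 10 - (a 4 * a 5 * a 7 * a 9) ^ 2 =
      a 5 * a 7 * a 9 ^ 2 * (a 3 * a 10 - a 4 ^ 2 * a 5 * a 7) := by ring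
  have e3 : a 0 * a 5 * a 6 * a 8 ^ 2 * a 10 * (a 3 * a 5 * a 7 * a 9 ^ 2 * a 10) +
      (a 2 * a 5 * a 6 * a 7 * a 8 * a 9 * a 10) ^ 2 =
      a 5 ^ 2 * a 6 * a 7 * a 8 ^ 2 * a 9 ^ 2 * a 10 ^ 2 * (a 0 * a 3 + a 2 ^ 2 * a 6 * a 7) := by
    ring
  rw [e1, e2, e3]
  generalize a 0 * a 10 - a 1 ^ 2 * a 5 * a 6 = P1
  generalize a 3 * a 10 - a 4 ^ 2 * a 5 * a 7 = P2
  generalize a 0 * a 3 + a 2 ^ 2 * a 6 * a 7 = P3
  ring

/-- the log resolution of `f_n` -/
noncomputable def RRa (n : ℕ) (hn : 0 < n) : LogResolution (fa n) where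
  Y := HF.Y
  topY := inferInstance
  t2 := FanData.t2Y HF
  mu := HF.mu
  proper := HF.mu_proper
  K := Fin 25
  finK := inferInstance
  chart := HF.chart
  chart_openEmbedding := HF.chart_openEmbedding
  chart_cover := HF.chart_cover
  transition := HF.transition
  muPoly := HF.muPoly
  mu_chart := HF.mu_chart_poly
  birational := by
    refine ⟨∏ i : Fin 5, MvPolynomial.X i, ?_, fun x hx => HF.mu_birational x fun i => ?_⟩
    · exact Finset.prod_ne_zero_iff.2 fun i _ => MvPolynomial.X_ne_zero i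
    · rw [map_prod] at hx
      have h := Finset.prod_ne_zero_iff.1 hx i (Finset.mem_univ i)
      rwa [MvPolynomial.eval_X] at h
  S := Fin 9
  finS := inferInstance
  decS := inferInstance
  E := EDiv
  E_closed := EDiv_closed
  E_connected := EDiv_connected
  N := NA n
  nu := nuD
  one_le_nu := by decide
  occurs := by
    intro i
    left
    fin_cases i <;> simp [NA, hn]
  eqn := eqnD
  E_chart := fun k i z => chart_mem_EDiv k i z
  snc := snc_HF
  div_f := fun k => ⟨1, one_ne_zero, by rw [div_fa_HF, map_one, one_mul]⟩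
  div_K := fun k => by
    obtain ⟨c, hc, h⟩ := HF.jac_muPoly k
    exact ⟨c, hc, by rw [h, div_K_HF]⟩

private theorem index_sub : ∀ J : Finset (Fin 9), (J.Nonempty ∧ J ⊆ {0, 3, 4}) ↔
    J ∈ ({{0}, {3}, {4}, {0, 3}, {0, 4}, {3, 4}, {0, 3, 4}} : Finset (Finset (Fin 9))) := by
  decide +kernel

private theorem index_iff (n : ℕ) (hn : 0 < n) (J : Finset (Fin 9)) :
    (J.Nonempty ∧ 2 * (n + 1) ∣ J.gcd (NA n)) ↔
    J ∈ ({{0}, {3}, {4}, {0, 3}, {0, 4}, {3, 4}, {0, 3, 4}} : Finset (Finset (Fin 9))) := by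
  rw [← index_sub]
  refine and_congr_right fun _ => ?_
  rw [Finset.dvd_gcd_iff]
  have key : ∀ i : Fin 9, 2 * (n + 1) ∣ NA n i ↔ i ∈ ({0, 3, 4} : Finset (Fin 9)) := by
    intro i
    have hlt : ∀ m, 0 < m → m < 2 * (n + 1) → ¬ 2 * (n + 1) ∣ m := fun m h1 h2 h3 =>
      absurd (Nat.le_of_dvd h1 h3) (not_le.2 h2)
    fin_cases i
    · exact iff_of_true (dvd_refl _) (by decide)
    · exact iff_of_false (hlt (n + 1) (by omega) (by omega)) (by decide)
    · exact iff_of_false (hlt (n + 1) (by omega) (by omega)) (by decide)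
    · exact iff_of_true (dvd_refl _) (by decide)
    · exact iff_of_true (dvd_refl _) (by decide)
    · exact iff_of_false (hlt 2 (by omega) (by omega)) (by decide)
    · exact iff_of_false (hlt n (by omega) (by omega)) (by decide)
    · exact iff_of_false (hlt n (by omega) (by omega)) (by decide)
    · exact iff_of_false (hlt 1 (by omega) (by omega)) (by decide)
  constructor
  · intro h i hi
    exact (key i).1 (h i hi)
  · intro h i hi
    exact (key i).2 (h hi)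

private noncomputable def term (n : ℕ) (J : Finset (Fin 9)) : RatFunc ℚ :=
  ((eulerChar (Str J) : ℤ) : RatFunc ℚ) *
    ∏ i ∈ J, ((NA n i : RatFunc ℚ) * RatFunc.X + (nuD i : RatFunc ℚ))⁻¹

private theorem Z_eq (n : ℕ) (hn : 0 < n) : (RRa n hn).Z (2 * (n + 1)) =
    ∑ J ∈ ({{0}, {3}, {4}, {0, 3}, {0, 4}, {3, 4}, {0, 3, 4}} : Finset (Finset (Fin 9))),
      term n J := by
  unfold LogResolution.Z
  refine Finset.sum_congr ?_ fun J _ => rfl
  ext J
  rw [Finset.mem_filter]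
  constructor
  · intro h
    exact (index_iff n hn J).1 h.2
  · intro h
    exact ⟨Finset.mem_univ _, (index_iff n hn J).2 h⟩

theorem Za_nonpoly (n : ℕ) (hn : 0 < n) (P : Polynomial ℚ) :
    (RRa n hn).Z (2 * (n + 1)) ≠ algebraMap (Polynomial ℚ) (RatFunc ℚ) P := by
  intro h
  rw [Z_eq] at h
  rw [Finset.sum_insert (by decide), Finset.sum_insert (by decide),
    Finset.sum_insert (by decide), Finset.sum_insert (by decide),
    Finset.sum_insert (by decide), Finset.sum_insert (by decide), Finset.sum_singleton] at h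
  have hN0 : NA n 0 = 2 * (n + 1) := rfl
  have hN3 : NA n 3 = 2 * (n + 1) := rfl
  have hN4 : NA n 4 = 2 * (n + 1) := rfl
  have hn0 : nuD 0 = 5 := rfl
  have hn3 : nuD 3 = 4 := rfl
  have hn4 : nuD 4 = 4 := rfl
  have e34 : eulerChar (Str {3, 4}) = 1 := EC_Str34.2
  have e034 : eulerChar (Str {0, 3, 4}) = -2 := EC_Str034.2
  unfold term at h
  rw [Finset.prod_singleton, Finset.prod_singleton, Finset.prod_singleton,
    Finset.prod_insert (show (0 : Fin 9) ∉ ({3} : Finset (Fin 9)) by decide),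
    Finset.prod_insert (show (0 : Fin 9) ∉ ({4} : Finset (Fin 9)) by decide),
    Finset.prod_insert (show (0 : Fin 9) ∉ ({3, 4} : Finset (Fin 9)) by decide),
    Finset.prod_insert (show (3 : Fin 9) ∉ ({4} : Finset (Fin 9)) by decide),
    Finset.prod_singleton, Finset.prod_singleton, hN0, hN3, hN4, hn0, hn3, hn4, e34, e034] at h
  generalize hE0 : eulerChar (Str {0}) = E0 at h
  generalize hE3 : eulerChar (Str {3}) = E3 at h
  generalize hE4 : eulerChar (Str {4}) = E4 at h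
  generalize hE03 : eulerChar (Str {0, 3}) = E03 at h
  generalize hE04 : eulerChar (Str {0, 4}) = E04 at h
  obtain ⟨q, hq⟩ : ∃ q : ℚ, q = ((2 * (n + 1) : ℕ) : ℚ) := ⟨_, rfl⟩
  have hq0 : q ≠ 0 := by
    rw [hq]
    exact_mod_cast (by omega : 2 * (n + 1) ≠ 0)
  have cq : algebraMap (Polynomial ℚ) (RatFunc ℚ) (Polynomial.C q) =
      ((2 * (n + 1) : ℕ) : RatFunc ℚ) := by
    rw [hq, map_natCast, map_natCast]
  have c4 : algebraMap (Polynomial ℚ) (RatFunc ℚ) 4 = 4 := map_ofNat _ 4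
  have c5 : algebraMap (Polynomial ℚ) (RatFunc ℚ) 5 = 5 := map_ofNat _ 5
  have c2 : algebraMap (Polynomial ℚ) (RatFunc ℚ) 2 = 2 := map_ofNat _ 2
  obtain ⟨U, hU⟩ : ∃ U : Polynomial ℚ, U = Polynomial.C q * Polynomial.X + 4 := ⟨_, rfl⟩
  obtain ⟨V, hV⟩ : ∃ V : Polynomial ℚ, V = Polynomial.C q * Polynomial.X + 5 := ⟨_, rfl⟩
  have hu : (((2 * (n + 1) : ℕ) : RatFunc ℚ) * RatFunc.X + ((4 : ℕ) : RatFunc ℚ)) =
      algebraMap (Polynomial ℚ) (RatFunc ℚ) U := by
    rw [hU, map_add, map_mul, cq, c4, RatFunc.algebraMap_X]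
    rfl
  have hv : (((2 * (n + 1) : ℕ) : RatFunc ℚ) * RatFunc.X + ((5 : ℕ) : RatFunc ℚ)) =
      algebraMap (Polynomial ℚ) (RatFunc ℚ) V := by
    rw [hV, map_add, map_mul, cq, c5, RatFunc.algebraMap_X]
    rfl
  rw [hu, hv] at h
  have eU0 : Polynomial.eval 0 U = 4 := by rw [hU]; simp
  have eV0 : Polynomial.eval 0 V = 5 := by rw [hV]; simp
  have eU : Polynomial.eval (-4 / q) U = 0 := by
    rw [hU]
    simp
    field_simp
    ring
  have eV : Polynomial.eval (-4 / q) V = 1 := by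
    rw [hV]
    simp
    field_simp
    ring
  have hu0 : algebraMap (Polynomial ℚ) (RatFunc ℚ) U ≠ 0 := by
    intro h1
    have h2 := (map_eq_zero_iff _ (IsFractionRing.injective (Polynomial ℚ) (RatFunc ℚ))).1 h1
    rw [h2, Polynomial.eval_zero] at eU0
    norm_num at eU0
  have hv0 : algebraMap (Polynomial ℚ) (RatFunc ℚ) V ≠ 0 := by
    intro h1
    have h2 := (map_eq_zero_iff _ (IsFractionRing.injective (Polynomial ℚ) (RatFunc ℚ))).1 h1
    rw [h2, Polynomial.eval_zero] at eV0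
    norm_num at eV0
  have key : algebraMap (Polynomial ℚ) (RatFunc ℚ) (P * V * U ^ 2) =
      algebraMap (Polynomial ℚ) (RatFunc ℚ)
      ((E0 : Polynomial ℚ) * U ^ 2 + ((E3 : Polynomial ℚ) + (E4 : Polynomial ℚ)) * U * V +
        ((E03 : Polynomial ℚ) + (E04 : Polynomial ℚ)) * U + V - 2) := by
    rw [map_mul, map_mul, ← h]
    simp only [map_sub, map_add, map_mul, map_intCast, map_pow, c2]
    generalize algebraMap (Polynomial ℚ) (RatFunc ℚ) U = u at *
    generalize algebraMap (Polynomial ℚ) (RatFunc ℚ) V = v at *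
    push_cast
    field_simp
    ring
  have key2 := IsFractionRing.injective (Polynomial ℚ) (RatFunc ℚ) key
  have key3 := congrArg (Polynomial.eval (-4 / q : ℚ)) key2
  simp only [Polynomial.eval_mul, Polynomial.eval_add, Polynomial.eval_sub, Polynomial.eval_pow,
    Polynomial.eval_intCast, Polynomial.eval_ofNat, eU, eV] at key3
  norm_num at key3

end Pool.Agent.HZ
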