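import Pool.Agent.Lib.MP_3c7f5c_ag.Gen.Defs

/-!
# `f₁ = (x - y²) (u - v²) (x u + w²)` is reduced
-/

set_option autoImplicit false

open MvPolynomial

namespace Pool.Agent.HZ

private theorem irrA : Irreducible (X 0 - X 1 ^ 2 : MvPolynomial (Fin 5) ℂ) := by
  have h := irreducible_mul_X_add (1 : MvPolynomial (Fin 5) ℂ) (-X 1 ^ 2) 0 one_ne_zero
    (by simp) ?_ isRelPrime_one_left
  · rwa [one_mul, ← sub_eq_add_neg] at h
  · intro h
    rw [vars_neg] at h
    have h2 := vars_pow _ _ h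
    rw [vars_X] at h2
    simp at h2

private theorem irrB : Irreducible (X 3 - X 4 ^ 2 : MvPolynomial (Fin 5) ℂ) := by
  have h := irreducible_mul_X_add (1 : MvPolynomial (Fin 5) ℂ) (-X 4 ^ 2) 3 one_ne_zero
    (by simp) ?_ isRelPrime_one_left
  · rwa [one_mul, ← sub_eq_add_neg] at h
  · intro h
    rw [vars_neg] at h
    have h2 := vars_pow _ _ h
    rw [vars_X] at h2
    simp at h2

private theorem irrG : Irreducible (X 0 * X 3 + X 2 ^ 2 : MvPolynomial (Fin 5) ℂ) := by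
  have h := irreducible_mul_X_add (X 3 : MvPolynomial (Fin 5) ℂ) (X 2 ^ 2) 0 (X_ne_zero 3)
    (by rw [vars_X]; simp) ?_ ?_
  · rwa [mul_comm] at h
  · intro h
    have h2 := vars_pow _ _ h
    rw [vars_X] at h2
    simp at h2
  · have hp : Prime (X 3 : MvPolynomial (Fin 5) ℂ) := X_prime
    rw [hp.irreducible.isRelPrime_iff_not_dvd]
    intro hd
    have h3 := congrArg (eval (![0, 0, 1, 0, 0] : Fin 5 → ℂ)) (hp.dvd_of_dvd_pow hd).choose_spec
    simp at h3

private theorem not_dvd_of_eval {p q : MvPolynomial (Fin 5) ℂ} (z : Fin 5 → ℂ)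
    (hp : eval z p = 0) (hq : eval z q ≠ 0) : ¬ p ∣ q := by
  rintro ⟨r, rfl⟩
  rw [map_mul, hp, zero_mul] at hq
  exact hq rfl

theorem fa_one_squarefree : Squarefree (fa 1) := by
  unfold fa
  rw [pow_one, pow_one, mul_assoc, squarefree_mul_iff, squarefree_mul_iff,
    irrA.isRelPrime_iff_not_dvd, irrB.isRelPrime_iff_not_dvd]
  refine ⟨?_, irrA.squarefree, ?_, irrB.squarefree, irrG.squarefree⟩
  · refine not_dvd_of_eval (![1, 1, 0, 2, 0] : Fin 5 → ℂ) ?_ ?_
    · simp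
    · simp
  · refine not_dvd_of_eval (![1, 0, 0, 1, 1] : Fin 5 → ℂ) ?_ ?_
    · simp
    · simp

theorem fa_totalDegree (a : ℕ) (ha : 0 < a) : 0 < (fa a).totalDegree := by
  by_contra h
  have h0 : (fa a).totalDegree = 0 := by omega
  obtain ⟨c, hc⟩ : ∃ c, fa a = C c := ⟨_, totalDegree_eq_zero_iff_eq_C.1 h0⟩
  have h1 := congrArg (eval (fun _ : Fin 5 => (0 : ℂ))) hc
  have h2 := congrArg (eval (![1, 0, 0, 1, 0] : Fin 5 → ℂ)) hc
  simp [fa, ha.ne'] at h1 h2
  rw [← h1] at h2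
  norm_num at h2

end Pool.Agent.HZ
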